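import Mathlib

set_option linter.unusedSectionVars false

namespace Pool.Agent.MP_e21097_co

open Finset Module

abbrev K2 := ZMod 2

section
variable {D : Type*} [Fintype D] [DecidableEq D]

/-- functions constant on the classes of a setoid -/
def SV (s : Setoid D) : Submodule K2 (D → K2) where
  carrier := {f | ∀ a b, s a b → f a = f b}
  add_mem' := by
    intro f g hf hg a b h
    simp only [Pi.add_apply, hf a b h, hg a b h]
  zero_mem' := by intro a b _; rfl
  smul_mem' := by
    intro c f hf a b h
    simp only [Pi.smul_apply, hf a b h]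

/-- the functions constant on classes are the functions on the quotient -/
def svEquiv (s : Setoid D) : (Quotient s → K2) ≃ₗ[K2] SV s where
  toFun g := ⟨fun d => g (Quotient.mk s d), fun a b h => congrArg g (Quotient.sound h)⟩
  map_add' := by intro f g; rfl
  map_smul' := by intro c g; rfl
  invFun f := Quotient.lift f.1 f.2
  left_inv := by
    intro g
    funext q
    induction q using Quotient.inductionOn with
    | h d => rfl
  right_inv := by
    intro f
    rfl

theorem finrank_SV (s : Setoid D) : finrank K2 (SV s) = Nat.card (Quotient s) := by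
  classical
  have : Fintype (Quotient s) := Fintype.ofFinite _
  rw [← (svEquiv s).finrank_eq, Module.finrank_fintype_fun_eq_card, Nat.card_eq_fintype_card]

/-- the dot product form -/
def dotB (D : Type*) [Fintype D] : LinearMap.BilinForm K2 (D → K2) := dotProductBilin K2 K2

theorem dotB_apply (x y : D → K2) : dotB D x y = ∑ d, x d * y d := rfl

theorem dotB_nondeg : (dotB D).Nondegenerate := by
  constructor
  · intro x hx
    funext d
    have := hx (Pi.single d 1)
    rw [dotB_apply] at this
    simpa [Pi.single_apply] using this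
  · intro y hy
    funext d
    have := hy (Pi.single d 1)
    rw [dotB_apply] at this
    simpa [Pi.single_apply] using this

theorem add_self_K2 (x : K2) : x + x = 0 := CharTwo.add_self_eq_zero x

/-- the vertex function space etc. -/
abbrev InvP (τ : Equiv.Perm D) : Submodule K2 (D → K2) := SV (Equiv.Perm.SameCycle.setoid τ)

theorem mem_InvP {τ : Equiv.Perm D} {f : D → K2} : f ∈ InvP τ ↔ ∀ d, f (τ d) = f d := by
  constructor
  · intro h d
    exact h _ _ (show Equiv.Perm.SameCycle τ (τ d) d from
      (Equiv.Perm.sameCycle_apply_left.mpr (Equiv.Perm.SameCycle.refl _ _)))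
  · intro h a b hab
    obtain ⟨i, hi⟩ : Equiv.Perm.SameCycle τ a b := hab
    have key : ∀ n : ℕ, ∀ d, f ((τ ^ n) d) = f d := by
      intro n
      induction n with
      | zero => intro d; simp
      | succ n ih => intro d; rw [pow_succ', Equiv.Perm.mul_apply, h, ih]
    rcases i with n | n
    · rw [Int.ofNat_eq_natCast, zpow_natCast] at hi
      rw [← hi, key]
    · rw [zpow_negSucc] at hi
      have : a = (τ ^ (n + 1)) b := by
        rw [← hi]; simp
      rw [this, key]

/-- the boundary of a face function -/
def bdry (α : Equiv.Perm D) : (D → K2) →ₗ[K2] (D → K2) where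
  toFun g := fun d => g d + g (α d)
  map_add' := by
    intro f g; funext d; simp only [Pi.add_apply]; ring
  map_smul' := by
    intro c f; funext d; simp only [Pi.smul_apply, smul_eq_mul, RingHom.id_apply]; ring

theorem bdry_apply (α : Equiv.Perm D) (g : D → K2) (d : D) : bdry α g d = g d + g (α d) := rfl

theorem sum_invol (α : Equiv.Perm D) (hα : ∀ d, α (α d) = d) (hα' : ∀ d, α d ≠ d)
    (f : D → K2) (hf : ∀ d, f (α d) = f d) : ∑ d, f d = 0 := by
  refine Finset.sum_involution (fun d _ => α d) ?_ ?_ ?_ ?_
  · intro d _; rw [hf]; exact add_self_K2 _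
  · intro d _ _; exact hα' d
  · intro d _; exact mem_univ _
  · intro d _; exact hα d

/-- faces bound cycles: orthogonality -/
theorem bdry_orth_vertex (σ α : Equiv.Perm D)
    (f g : D → K2) (hα : ∀ d, α (α d) = d) (hf : ∀ d, f (σ d) = f d)
    (hg : ∀ d, g ((σ * α) d) = g d) : ∑ d, f d * bdry α g d = 0 := by
  have h1 : ∑ d, f d * g (α d) = ∑ d, f (α d) * g d := by
    rw [← Equiv.sum_comp α (fun d => f (α d) * g d)]
    apply Finset.sum_congr rfl
    intro d _
    rw [hα]
  have h2 : ∑ d, f (α d) * g d = ∑ d, f d * g d := by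
    rw [← Equiv.sum_comp (σ * α) (fun d => f d * g d)]
    apply Finset.sum_congr rfl
    intro d _
    rw [hg, Equiv.Perm.mul_apply, hf]
  simp only [bdry_apply, mul_add, Finset.sum_add_distrib]
  rw [h1, h2]
  exact add_self_K2 _

theorem bdry_orth_edge (α : Equiv.Perm D) (hα : ∀ d, α (α d) = d)
    (f g : D → K2) (hf : ∀ d, f (α d) = f d) : ∑ d, f d * bdry α g d = 0 := by
  have h1 : ∑ d, f d * g (α d) = ∑ d, f d * g d := by
    rw [← Equiv.sum_comp α (fun d => f d * g d)]
    apply Finset.sum_congr rfl
    intro d _
    rw [hf]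
  simp only [bdry_apply, mul_add, Finset.sum_add_distrib]
  rw [h1]
  exact add_self_K2 _

/-- Under Euler's formula every `σ`-orthogonal `α`-invariant function is a sum of face
boundaries. The number `C` is the dimension of the space of functions invariant under both. -/
theorem cycle_is_boundary (σ α : Equiv.Perm D) (hα : ∀ d, α (α d) = d) (hα' : ∀ d, α d ≠ d)
    (heul : finrank K2 (InvP σ) + finrank K2 (InvP α) + finrank K2 (InvP (σ * α)) =
      Fintype.card D + 2 * finrank K2 (InvP σ ⊓ InvP α : Submodule K2 (D → K2)))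
    (y : D → K2) (hy : ∀ d, y (α d) = y d)
    (hyσ : ∀ f : D → K2, (∀ d, f (σ d) = f d) → ∑ d, f d * y d = 0) :
    ∃ g : D → K2, (∀ d, g ((σ * α) d) = g d) ∧ ∀ d, y d = g d + g (α d) := by
  set Z := (dotB D).orthogonal (InvP α ⊔ InvP σ) with hZ
  set R := (InvP (σ * α)).map (bdry α) with hR
  have hRZ : R ≤ Z := by
    rintro _ ⟨g, hg, rfl⟩
    rw [hZ, LinearMap.BilinForm.mem_orthogonal_iff]
    intro n hn
    obtain ⟨a, ha, b, hb, rfl⟩ := Submodule.mem_sup.mp hn
    show dotB D (a + b) (bdry α g) = 0
    rw [map_add, LinearMap.add_apply, dotB_apply, dotB_apply,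
      bdry_orth_edge α hα a g (mem_InvP.mp ha),
      bdry_orth_vertex σ α b g hα (mem_InvP.mp hb) (mem_InvP.mp hg), add_zero]
  have hyZ : y ∈ Z := by
    rw [hZ, LinearMap.BilinForm.mem_orthogonal_iff]
    intro n hn
    obtain ⟨a, ha, b, hb, rfl⟩ := Submodule.mem_sup.mp hn
    show dotB D (a + b) y = 0
    rw [map_add, LinearMap.add_apply, dotB_apply, dotB_apply, hyσ b (mem_InvP.mp hb), add_zero]
    apply sum_invol α hα hα'
    intro d
    rw [hy, mem_InvP.mp ha]
  have hdimZ : finrank K2 Z = Fintype.card D - finrank K2 (InvP α ⊔ InvP σ : Submodule K2 (D → K2)) := by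
    rw [hZ, LinearMap.BilinForm.finrank_orthogonal dotB_nondeg, Module.finrank_fintype_fun_eq_card]
  have hsup := Submodule.finrank_sup_add_finrank_inf_eq (InvP α) (InvP σ)
  -- dimension of R
  have hker : finrank K2 (LinearMap.ker ((bdry α).domRestrict (InvP (σ * α)))) =
      finrank K2 (InvP σ ⊓ InvP α : Submodule K2 (D → K2)) := by
    have e : (LinearMap.ker ((bdry α).domRestrict (InvP (σ * α)))).map
        (InvP (σ * α)).subtype = InvP σ ⊓ InvP α := by
      ext f
      simp only [Submodule.mem_map, LinearMap.mem_ker, Submodule.mem_inf]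
      constructor
      · rintro ⟨⟨g, hg⟩, hg0, rfl⟩
        have h1 : ∀ d, g (α d) = g d := by
          intro d
          have := congrFun hg0 d
          simp only [LinearMap.domRestrict_apply, bdry_apply, Pi.zero_apply] at this
          exact (CharTwo.add_eq_zero.mp this).symm
        have h2 := mem_InvP.mp hg
        refine ⟨mem_InvP.mpr ?_, mem_InvP.mpr h1⟩
        intro d
        have := h2 (α d)
        rw [Equiv.Perm.mul_apply, hα, h1] at this
        exact this
      · rintro ⟨h1, h2⟩
        have h1' := mem_InvP.mp h1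
        have h2' := mem_InvP.mp h2
        refine ⟨⟨f, mem_InvP.mpr ?_⟩, ?_, rfl⟩
        · intro d
          rw [Equiv.Perm.mul_apply, h1', h2']
        · funext d
          simp only [LinearMap.domRestrict_apply, bdry_apply, Pi.zero_apply]
          rw [h2']
          exact add_self_K2 _
    rw [← e, Submodule.finrank_map_subtype_eq]
  have hrn := LinearMap.finrank_range_add_finrank_ker ((bdry α).domRestrict (InvP (σ * α)))
  have hrange : LinearMap.range ((bdry α).domRestrict (InvP (σ * α))) = R := by
    rw [LinearMap.range_domRestrict]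
  rw [hrange, hker] at hrn
  have hle := Submodule.finrank_mono hRZ
  have hsup_le : finrank K2 (InvP α ⊔ InvP σ : Submodule K2 (D → K2)) ≤ Fintype.card D := by
    have := Submodule.finrank_le (InvP α ⊔ InvP σ : Submodule K2 (D → K2))
    rwa [Module.finrank_fintype_fun_eq_card] at this
  have hcomm : finrank K2 (InvP α ⊓ InvP σ : Submodule K2 (D → K2)) =
      finrank K2 (InvP σ ⊓ InvP α : Submodule K2 (D → K2)) := by rw [inf_comm]
  have heq : R = Z := Submodule.eq_of_le_of_finrank_le hRZ (by omega)
  rw [← heq] at hyZ
  obtain ⟨g, hg, rfl⟩ := hyZ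
  exact ⟨g, mem_InvP.mp hg, fun d => rfl⟩

end

end Pool.Agent.MP_e21097_co
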