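import Mathlib
import Pool.Agent.Lib.MP_e21097_co.Euler

set_option linter.unusedSectionVars false

namespace Pool.Agent.MP_e21097_co

open Finset Module

section
variable {D V : Type*} [Fintype D] [DecidableEq D] [DecidableEq V]

/-- a nonzero even edge set of a simple bipartite graph has at least four edges (eight darts) -/
theorem support_ge (α : Equiv.Perm D) (src : D → V) (hα : ∀ d, α (α d) = d)
    (hsimple : ∀ d e, src d = src e → src (α d) = src (α e) → d = e)
    (col : V → Bool) (hcol : ∀ d, col (src d) ≠ col (src (α d)))
    (y : D → K2) (hy : ∀ d, y (α d) = y d)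
    (hev : ∀ v, ∑ d ∈ univ.filter (fun d => src d = v), y d = 0) (hne : y ≠ 0) :
    8 ≤ (univ.filter (fun d => y d ≠ 0)).card := by
  classical
  -- another dart at the same vertex
  have hother : ∀ d, y d ≠ 0 → ∃ e, y e ≠ 0 ∧ e ≠ d ∧ src e = src d := by
    intro d hd
    by_contra hcon
    push Not at hcon
    have h1 := hev (src d)
    rw [Finset.sum_eq_single_of_mem d (by simp)] at h1
    · exact hd h1
    · intro e he hed
      by_contra h
      exact (hcon e h hed) (Finset.mem_filter.mp he).2
  have hyα : ∀ d, y d ≠ 0 → y (α d) ≠ 0 := fun d hd => by rwa [hy]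
  obtain ⟨d1, hd1⟩ : ∃ d, y d ≠ 0 := by
    by_contra h
    push Not at h
    exact hne (funext h)
  obtain ⟨d2, hd2, hd2ne, hd2s⟩ := hother (α d1) (hyα _ hd1)
  obtain ⟨d3, hd3, hd3ne, hd3s⟩ := hother d1 hd1
  obtain ⟨d4, hd4, hd4ne, hd4s⟩ := hother (α d2) (hyα _ hd2)
  -- colour classes
  set S0 := univ.filter (fun d => y d ≠ 0 ∧ col (src d) = true) with hS0
  set S1 := univ.filter (fun d => y d ≠ 0 ∧ col (src d) = false) with hS1
  have hS : (univ.filter (fun d => y d ≠ 0)).card = S0.card + S1.card := by
    rw [← Finset.card_union_of_disjoint]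
    · congr 1
      ext d
      simp only [hS0, hS1, mem_filter, mem_univ, true_and, mem_union]
      cases col (src d) <;> simp
    · rw [Finset.disjoint_left]
      intro d h0 h1
      have a := (Finset.mem_filter.mp h0).2.2
      have b := (Finset.mem_filter.mp h1).2.2
      rw [a] at b
      exact absurd b (by decide)
  have hcolα : ∀ d, col (src (α d)) = !col (src d) := by
    intro d
    have := hcol d
    cases h1 : col (src d) <;> cases h2 : col (src (α d)) <;> simp_all
  have hS01 : S0.card = S1.card := by
    apply Finset.card_bij' (fun d _ => α d) (fun d _ => α d)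
    · intro d hd
      have := (Finset.mem_filter.mp hd).2
      exact Finset.mem_filter.mpr ⟨mem_univ _, hyα _ this.1, by rw [hcolα, this.2]; rfl⟩
    · intro d hd
      have := (Finset.mem_filter.mp hd).2
      exact Finset.mem_filter.mpr ⟨mem_univ _, hyα _ this.1, by rw [hcolα, this.2]; rfl⟩
    · intro d _; exact hα d
    · intro d _; exact hα d
  -- four darts whose sources are on one side
  set W : Finset D := {d1, d3, α d2, d4} with hW
  have sne : src d1 ≠ src (α d2) := by
    intro h
    apply hd2ne
    apply hsimple
    · exact hd2s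
    · rw [hα]; exact h.symm
  have hWcard : W.card = 4 := by
    rw [hW]
    have a1 : d1 ∉ ({d3, α d2, d4} : Finset D) := by
      simp only [mem_insert, mem_singleton, not_or]
      refine ⟨hd3ne.symm, ?_, ?_⟩
      · intro h; exact sne (by rw [h])
      · intro h; exact sne (by rw [h, hd4s])
    have a2 : d3 ∉ ({α d2, d4} : Finset D) := by
      simp only [mem_insert, mem_singleton, not_or]
      refine ⟨?_, ?_⟩
      · intro h; exact sne (by rw [← hd3s, h])
      · intro h; exact sne (by rw [← hd3s, h, hd4s])
    have a3 : α d2 ∉ ({d4} : Finset D) := by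
      simp only [mem_singleton]
      exact fun h => hd4ne h.symm
    rw [card_insert_of_notMem a1, card_insert_of_notMem a2, card_insert_of_notMem a3,
      card_singleton]
  have hWy : ∀ d ∈ W, y d ≠ 0 ∧ col (src d) = col (src d1) := by
    intro d hd
    rw [hW] at hd
    simp only [mem_insert, mem_singleton] at hd
    have c2 : col (src (α d2)) = col (src d1) := by
      rw [hcolα, hd2s, hcolα]; simp
    rcases hd with rfl | rfl | rfl | rfl
    · exact ⟨hd1, rfl⟩
    · exact ⟨hd3, by rw [hd3s]⟩
    · exact ⟨hyα _ hd2, c2⟩
    · exact ⟨hd4, by rw [hd4s]; exact c2⟩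
  cases hc : col (src d1)
  · have : W ⊆ S1 := fun d hd => Finset.mem_filter.mpr
      ⟨mem_univ _, (hWy d hd).1, by rw [(hWy d hd).2, hc]⟩
    have := card_le_card this
    omega
  · have : W ⊆ S0 := fun d hd => Finset.mem_filter.mpr
      ⟨mem_univ _, (hWy d hd).1, by rw [(hWy d hd).2, hc]⟩
    have := card_le_card this
    omega

/-- the edge bound for subgraphs of planar bipartite graphs -/
theorem edge_bound (σ α : Equiv.Perm D) (src : D → V) (hα : ∀ d, α (α d) = d)
    (hα' : ∀ d, α d ≠ d)
    (hsrc : ∀ d, src (σ d) = src d)
    (hsrc' : ∀ d e, src d = src e → σ.SameCycle d e)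
    (hsimple : ∀ d e, src d = src e → src (α d) = src (α e) → d = e)
    (col : V → Bool) (hcol : ∀ d, col (src d) ≠ col (src (α d)))
    (heul : finrank K2 (InvP σ) + finrank K2 (InvP α) + finrank K2 (InvP (σ * α)) =
      Fintype.card D + 2 * finrank K2 (InvP σ ⊓ InvP α : Submodule K2 (D → K2)))
    (X : Finset V) (hX : X.Nonempty) :
    (univ.filter (fun d => src d ∈ X ∧ src (α d) ∈ X)).card + 4 ≤ 4 * X.card := by
  classical
  set A := univ.filter (fun d => src d ∈ X ∧ src (α d) ∈ X) with hA
  have hAα : ∀ d, d ∈ A → α d ∈ A := by
    intro d hd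
    rw [hA, mem_filter] at hd ⊢
    exact ⟨mem_univ _, hd.2.2, by rw [hα]; exact hd.2.1⟩
  have hAα' : ∀ d, d ∉ A → α d ∉ A := by
    intro d hd h
    apply hd
    have := hAα _ h
    rwa [hα] at this
  -- edge functions supported on A
  let WA : Submodule K2 (D → K2) :=
    { carrier := {f | (∀ d, f (α d) = f d) ∧ ∀ d, d ∉ A → f d = 0}
      add_mem' := by
        intro f g hf hg
        exact ⟨fun d => by simp only [Pi.add_apply, hf.1, hg.1],
          fun d hd => by simp only [Pi.add_apply, hf.2 d hd, hg.2 d hd, add_zero]⟩
      zero_mem' := ⟨fun _ => rfl, fun _ _ => rfl⟩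
      smul_mem' := by
        intro c f hf
        exact ⟨fun d => by simp only [Pi.smul_apply, hf.1],
          fun d hd => by simp only [Pi.smul_apply, hf.2 d hd, smul_zero]⟩ }
  -- functions supported on A
  let UA : Submodule K2 (D → K2) :=
    { carrier := {f | ∀ d, d ∉ A → f d = 0}
      add_mem' := by
        intro f g hf hg
        exact fun d hd => by simp only [Pi.add_apply, hf d hd, hg d hd, add_zero]
      zero_mem' := fun _ _ => rfl
      smul_mem' := by
        intro c f hf
        exact fun d hd => by simp only [Pi.smul_apply, hf d hd, smul_zero] }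
  have hUA : finrank K2 UA = A.card := by
    let e : (A → K2) ≃ₗ[K2] UA :=
      { toFun := fun f => ⟨fun d => if h : d ∈ A then f ⟨d, h⟩ else 0,
          fun d hd => by simp only [dif_neg hd]⟩
        map_add' := by
          intro f g
          ext d
          by_cases h : d ∈ A <;> simp [h]
        map_smul' := by
          intro c f
          ext d
          by_cases h : d ∈ A <;> simp [h]
        invFun := fun f a => f.1 a.1
        left_inv := by
          intro f
          funext a
          simp
        right_inv := by
          intro f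
          ext d
          by_cases h : d ∈ A
          · simp [h]
          · simp [h, f.2 d h] }
    rw [← e.finrank_eq, Module.finrank_fintype_fun_eq_card, Fintype.card_coe]
  have hWA : A.card ≤ 2 * finrank K2 WA := by
    have hrn := LinearMap.finrank_range_add_finrank_ker ((bdry α).domRestrict UA)
    rw [hUA] at hrn
    have h1 : finrank K2 (LinearMap.range ((bdry α).domRestrict UA)) ≤ finrank K2 WA := by
      apply Submodule.finrank_mono
      rintro _ ⟨⟨f, hf⟩, rfl⟩
      refine ⟨fun d => ?_, fun d hd => ?_⟩
      · simp only [LinearMap.domRestrict_apply, bdry_apply, hα]; ring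
      · simp only [LinearMap.domRestrict_apply, bdry_apply]
        rw [hf d hd, hf _ (hAα' d hd), add_zero]
    have h2 : finrank K2 (LinearMap.ker ((bdry α).domRestrict UA)) ≤ finrank K2 WA := by
      rw [← Submodule.finrank_map_subtype_eq]
      apply Submodule.finrank_mono
      rintro _ ⟨⟨f, hf⟩, hf0, rfl⟩
      refine ⟨fun d => ?_, fun d hd => hf d hd⟩
      have := congrFun (LinearMap.mem_ker.mp hf0) d
      simp only [LinearMap.domRestrict_apply, bdry_apply, Pi.zero_apply] at this
      exact (CharTwo.add_eq_zero.mp this).symm
    omega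
  -- vertex sums
  let T : (D → K2) →ₗ[K2] (X → K2) :=
    { toFun := fun f x => ∑ d ∈ univ.filter (fun d => src d = x.1), f d
      map_add' := by
        intro f g
        funext x
        simp only [Pi.add_apply, Finset.sum_add_distrib]
      map_smul' := by
        intro c f
        funext x
        simp only [Pi.smul_apply, smul_eq_mul, RingHom.id_apply, Finset.mul_sum] }
  let ZA : Submodule K2 (D → K2) := WA ⊓ LinearMap.ker T
  have hTrange : finrank K2 (LinearMap.range (T.domRestrict WA)) + 1 ≤ X.card := by
    let s : (X → K2) →ₗ[K2] K2 := ∑ x : X, LinearMap.proj x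
    have hs : ∀ f : X → K2, s f = ∑ x, f x := by
      intro f
      simp [s]
    have h1 : LinearMap.range (T.domRestrict WA) ≤ LinearMap.ker s := by
      rintro _ ⟨⟨f, hf⟩, rfl⟩
      rw [LinearMap.mem_ker, hs]
      show ∑ x : X, ∑ d ∈ univ.filter (fun d => src d = x.1), f d = 0
      have h2 : ∑ x : X, ∑ d ∈ univ.filter (fun d => src d = x.1), f d =
          ∑ x ∈ X, ∑ d ∈ univ.filter (fun d => src d = x), f d :=
        Finset.sum_coe_sort X (fun x => ∑ d ∈ univ.filter (fun d => src d = x), f d)
      rw [h2, Finset.sum_fiberwise_eq_sum_filter]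
      have h3 : ∑ d ∈ univ.filter (fun d => src d ∈ X), f d = ∑ d, f d := by
        apply Finset.sum_subset (subset_univ _)
        intro d _ hd
        apply hf.2
        intro h
        apply hd
        rw [hA, mem_filter] at h
        exact mem_filter.mpr ⟨mem_univ _, h.2.1⟩
      rw [h3]
      exact sum_invol α hα hα' f hf.1
    have h2 := LinearMap.finrank_range_add_finrank_ker s
    have h3 : finrank K2 (LinearMap.range s) = 1 := by
      have : LinearMap.range s = ⊤ := by
        rw [LinearMap.range_eq_top]
        intro c
        obtain ⟨x, hx⟩ := hX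
        refine ⟨Pi.single ⟨x, hx⟩ c, ?_⟩
        rw [hs]
        simp
      rw [this, finrank_top, Module.finrank_self]
    rw [h3, Module.finrank_fintype_fun_eq_card, Fintype.card_coe] at h2
    have h4 := Submodule.finrank_mono h1
    omega
  have hZA : finrank K2 WA + 1 ≤ finrank K2 ZA + X.card := by
    have hrn := LinearMap.finrank_range_add_finrank_ker (T.domRestrict WA)
    have h1 : finrank K2 (LinearMap.ker (T.domRestrict WA)) = finrank K2 ZA := by
      have : (LinearMap.ker (T.domRestrict WA)).map WA.subtype = ZA := by
        ext f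
        simp only [Submodule.mem_map, LinearMap.mem_ker]
        constructor
        · rintro ⟨⟨g, hg⟩, hg0, rfl⟩
          exact ⟨hg, hg0⟩
        · rintro ⟨h1, h2⟩
          exact ⟨⟨f, h1⟩, h2, rfl⟩
      rw [← this, Submodule.finrank_map_subtype_eq]
    omega
  -- the classes
  let rel : D → D → Prop := fun a b => σ (α a) = b ∨ (a ∉ A ∧ α a = b)
  let s : Setoid D := Relation.EqvGen.setoid rel
  have : Fintype (Quotient s) := Fintype.ofFinite _
  have hs1 : ∀ d, s (σ (α d)) d := fun d =>
    Setoid.symm' s (Relation.EqvGen.rel _ _ (Or.inl rfl))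
  have hs2 : ∀ d, d ∉ A → s (α d) d := fun d hd =>
    Setoid.symm' s (Relation.EqvGen.rel _ _ (Or.inr ⟨hd, rfl⟩))
  let cl : D → Quotient s := Quotient.mk s
  let one : Quotient s → D → K2 := fun c d => if cl d = c then 1 else 0
  let yc : Quotient s → D → K2 := fun c => bdry α (one c)
  have hyc : ∀ c d, yc c d = (if cl d = c then 1 else 0) + (if cl (α d) = c then 1 else 0) :=
    fun c d => rfl
  have hcl1 : ∀ d, cl (σ (α d)) = cl d := fun d => Quotient.sound (hs1 d)
  have hcl2 : ∀ d, d ∉ A → cl (α d) = cl d := fun d hd => Quotient.sound (hs2 d hd)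
  -- vertex sums of yc vanish
  have hvert : ∀ (g : D → K2), (∀ d, g ((σ * α) d) = g d) → ∀ v,
      ∑ d ∈ univ.filter (fun d => src d = v), bdry α g d = 0 := by
    intro g hg v
    have := bdry_orth_vertex σ α (fun d => if src d = v then 1 else 0) g hα
      (fun d => by simp only [hsrc]) hg
    rw [Finset.sum_filter]
    refine Eq.trans ?_ this
    apply Finset.sum_congr rfl
    intro d _
    split_ifs <;> simp
  have hycZ : ∀ c, yc c ∈ ZA := by
    intro c
    refine ⟨⟨?_, ?_⟩, ?_⟩
    · intro d
      rw [hyc, hyc, hα]; ring
    · intro d hd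
      rw [hyc, hcl2 d hd]
      exact add_self_K2 _
    · funext x
      exact hvert (one c) (fun d => by
        show (if cl ((σ * α) d) = c then (1 : K2) else 0) = if cl d = c then 1 else 0
        rw [Equiv.Perm.mul_apply, hcl1]) x.1
  let N : Finset (Quotient s) := univ.filter (fun c => yc c ≠ 0)
  -- spanning
  have hspan : ∀ y ∈ ZA, ∃ a : Quotient s → K2, y = ∑ c, a c • yc c := by
    intro y hy
    obtain ⟨⟨hy1, hy2⟩, hy3⟩ := hy
    have hy3' : ∀ v, ∑ d ∈ univ.filter (fun d => src d = v), y d = 0 := by
      intro v
      by_cases hv : v ∈ X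
      · exact congrFun hy3 ⟨v, hv⟩
      · apply Finset.sum_eq_zero
        intro d hd
        apply hy2
        intro h
        apply hv
        rw [hA, mem_filter] at h
        rw [← (mem_filter.mp hd).2]
        exact h.2.1
    obtain ⟨g, hg1, hg2⟩ := cycle_is_boundary σ α hα hα' heul y hy1 (by
      intro f hf
      have h1 : ∀ d e, src d = src e → f d = f e := by
        intro d e h
        exact (mem_InvP.mpr hf : f ∈ InvP σ) d e (hsrc' d e h)
      rw [← Finset.sum_fiberwise_of_maps_to (s := univ) (t := univ.image src) (g := src)
        (fun d _ => mem_image_of_mem _ (mem_univ _))]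
      apply Finset.sum_eq_zero
      intro v hv
      obtain ⟨d0, -, hd0⟩ := mem_image.mp hv
      have : ∑ d ∈ univ.filter (fun d => src d = v), f d * y d =
          f d0 * ∑ d ∈ univ.filter (fun d => src d = v), y d := by
        rw [Finset.mul_sum]
        apply Finset.sum_congr rfl
        intro d hd
        rw [h1 d d0 ((mem_filter.mp hd).2.trans hd0.symm)]
      rw [this, hy3', mul_zero])
    have hgs : ∀ a b, s a b → g a = g b := by
      intro a b hab
      have : Relation.EqvGen rel a b := hab
      induction this with
      | rel a b h =>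
        rcases h with h | ⟨h1, h2⟩
        · rw [← h]; exact (hg1 a).symm
        · have h3 := hg2 a
          rw [hy2 a h1, h2] at h3
          exact CharTwo.add_eq_zero.mp h3.symm
      | refl a => rfl
      | symm a b h ih => exact (ih h).symm
      | trans a b c h1 h2 ih1 ih2 => exact (ih1 h1).trans (ih2 h2)
    refine ⟨Quotient.lift g hgs, ?_⟩
    funext d
    rw [hg2]
    simp only [Finset.sum_apply, Pi.smul_apply, smul_eq_mul, hyc, mul_add, mul_ite, mul_one,
      mul_zero, Finset.sum_add_distrib, Finset.sum_ite_eq, mem_univ, if_true]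
    rfl
  have hsum0 : ∑ c, yc c = 0 := by
    funext d
    simp only [Finset.sum_apply, hyc, Finset.sum_add_distrib, Finset.sum_ite_eq, mem_univ,
      if_true, Pi.zero_apply]
    exact add_self_K2 _
  have hNsum : ∑ c ∈ N, yc c = 0 := by
    rw [← hsum0]
    apply Finset.sum_subset (subset_univ _)
    intro c _ hc
    by_contra h
    exact hc (mem_filter.mpr ⟨mem_univ _, h⟩)
  have hdim : finrank K2 ZA = 0 ∨ finrank K2 ZA + 1 ≤ N.card := by
    rcases N.eq_empty_or_nonempty with hN | ⟨c0, hc0⟩
    · left
      have : ZA = ⊥ := by
        rw [eq_bot_iff]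
        intro y hy
        obtain ⟨a, rfl⟩ := hspan y hy
        rw [Submodule.mem_bot]
        apply Finset.sum_eq_zero
        intro c _
        have : yc c = 0 := by
          by_contra h
          have : c ∈ N := mem_filter.mpr ⟨mem_univ _, h⟩
          rw [hN] at this
          simp at this
        rw [this, smul_zero]
      rw [this, finrank_bot]
    · right
      have hle : ZA ≤ Submodule.span K2 (((N.erase c0).image yc : Finset (D → K2)) : Set (D → K2)) := by
        intro y hy
        obtain ⟨a, rfl⟩ := hspan y hy
        have hmem : ∀ c ∈ N.erase c0, yc c ∈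
            Submodule.span K2 (((N.erase c0).image yc : Finset (D → K2)) : Set (D → K2)) :=
          fun c hc => Submodule.subset_span (by
            rw [Finset.coe_image]
            exact ⟨c, hc, rfl⟩)
        apply Submodule.sum_mem
        intro c _
        apply Submodule.smul_mem
        by_cases hcN : c ∈ N
        · by_cases hcc : c = c0
          · subst hcc
            have h1 : yc c = - ∑ c' ∈ N.erase c, yc c' := by
              rw [← Finset.add_sum_erase N yc hcN] at hNsum
              exact eq_neg_of_add_eq_zero_left hNsum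
            rw [h1]
            exact Submodule.neg_mem _ (Submodule.sum_mem _ (fun c' hc' => hmem c' hc'))
          · exact hmem c (mem_erase.mpr ⟨hcc, hcN⟩)
        · have : yc c = 0 := by
            by_contra h
            exact hcN (mem_filter.mpr ⟨mem_univ _, h⟩)
          rw [this]
          exact Submodule.zero_mem _
      have h1 := Submodule.finrank_mono hle
      have h2 := finrank_span_finset_le_card (R := K2) ((N.erase c0).image yc)
      have h3 : ((N.erase c0).image yc).card ≤ (N.erase c0).card := card_image_le
      rw [card_erase_of_mem hc0] at h3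
      have h4 : 1 ≤ N.card := card_pos.mpr ⟨c0, hc0⟩
      unfold Set.finrank at h2
      omega
  -- counting
  have hcount : 4 * N.card ≤ A.card := by
    have h8 : ∀ c ∈ N, 8 ≤ (univ.filter (fun d => yc c d ≠ 0)).card := by
      intro c hc
      have hz := hycZ c
      exact support_ge α src hα hsimple col hcol (yc c) hz.1.1
        (hvert (one c) (fun d => by
          show (if cl ((σ * α) d) = c then (1 : K2) else 0) = if cl d = c then 1 else 0
          rw [Equiv.Perm.mul_apply, hcl1])) (mem_filter.mp hc).2
    have h1 : 8 * N.card ≤ ∑ c ∈ N, (univ.filter (fun d => yc c d ≠ 0)).card := by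
      have := Finset.sum_le_sum h8
      rw [Finset.sum_const, smul_eq_mul] at this
      omega
    have h2 : ∑ c ∈ N, (univ.filter (fun d => yc c d ≠ 0)).card ≤ 2 * A.card := by
      have h3 : ∀ c, (univ.filter (fun d => yc c d ≠ 0)).card = ∑ d, if yc c d ≠ 0 then 1 else 0 := by
        intro c
        rw [Finset.card_filter]
      simp only [h3]
      rw [Finset.sum_comm]
      have h4 : ∀ d, (∑ c ∈ N, if yc c d ≠ 0 then 1 else 0) ≤ if d ∈ A then 2 else 0 := by
        intro d
        rw [← Finset.card_filter]
        split_ifs with hd
        · have : N.filter (fun c => yc c d ≠ 0) ⊆ {cl d, cl (α d)} := by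
            intro c hc
            have hc' := (mem_filter.mp hc).2
            rw [hyc] at hc'
            simp only [mem_insert, mem_singleton]
            by_contra hcon
            push Not at hcon
            apply hc'
            rw [if_neg (fun h => hcon.1 h.symm), if_neg (fun h => hcon.2 h.symm), add_zero]
          exact (card_le_card this).trans card_le_two
        · rw [Nat.le_zero, Finset.card_eq_zero, Finset.filter_eq_empty_iff]
          intro c _ h
          exact h ((hycZ c).1.2 d hd)
      have h5 := Finset.sum_le_sum (s := univ) (fun d _ => h4 d)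
      have h6 : ∑ d, (if d ∈ A then 2 else 0) = 2 * A.card := by
        rw [← Finset.sum_filter, Finset.sum_const, smul_eq_mul, Finset.filter_mem_eq_inter,
          Finset.univ_inter, mul_comm]
      omega
    omega
  have hXpos : 1 ≤ X.card := card_pos.mpr hX
  rcases hdim with h | h <;> omega

end

end Pool.Agent.MP_e21097_co
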