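import Mathlib

namespace Pool.Agent.MP_e21097_co

/-- Reversal of the darts (oriented edges) of a graph, as a permutation. -/
def rev {V : Type} (G : SimpleGraph V) : Equiv.Perm G.Dart where
  toFun := SimpleGraph.Dart.symm
  invFun := SimpleGraph.Dart.symm
  left_inv := SimpleGraph.Dart.symm_symm
  right_inv := SimpleGraph.Dart.symm_symm

/-- The number of orbits (cycles, fixed points included) of a permutation. -/
noncomputable def numOrbits {D : Type} (τ : Equiv.Perm D) : ℕ :=
  Nat.card (Quotient (Equiv.Perm.SameCycle.setoid τ))

/-- The number of orbits of the group generated by two permutations. -/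
noncomputable def numOrbitsTwo {D : Type} (σ τ : Equiv.Perm D) : ℕ :=
  Nat.card (MulAction.orbitRel.Quotient (Subgroup.closure ({σ, τ} : Set (Equiv.Perm D))) D)

/-- A rotation system of `G`: a permutation of the darts whose cycles are exactly the sets of
darts leaving one vertex (it gives the cyclic order of the edges around each vertex). -/
def IsRotationSystem {V : Type} (G : SimpleGraph V) (σ : Equiv.Perm G.Dart) : Prop :=
  ∀ d e : G.Dart, σ.SameCycle d e ↔ d.fst = e.fst

/-- `G` is planar: some rotation system `σ` satisfies Euler's formula
`#vertices + #faces = #edges + 2 #components`, where isolated vertices are left out: the vertices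
of positive degree are the orbits of `σ`, the faces are the orbits of `σ ∘ rev`, and the
components having an edge are the orbits of the group generated by `σ` and `rev`. -/
def IsPlanar {V : Type} (G : SimpleGraph V) : Prop :=
  ∃ σ : Equiv.Perm G.Dart, IsRotationSystem G σ ∧
    numOrbits σ + numOrbits (σ * rev G) = Nat.card G.edgeSet + 2 * numOrbitsTwo σ (rev G)

/-- `c` is a packing of the `k`-list assignment `L` of `G`: `k` proper `L`-colourings that are
pairwise disjoint. -/
def IsPacking {V C : Type} (G : SimpleGraph V) (k : ℕ) (L : V → Finset C) (c : Fin k → V → C) :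
    Prop :=
  (∀ i v, c i v ∈ L v) ∧ (∀ i u v, G.Adj u v → c i u ≠ c i v) ∧
    ∀ i j v, i ≠ j → c i v ≠ c j v

end Pool.Agent.MP_e21097_co
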