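import Mathlib
import Pool.Agent.Lib.MP_e21097_co.Defs

namespace Pool.Agent.MP_e21097_co

theorem numOrbits_eq {D : Type} (τ : Equiv.Perm D) (n : ℕ) (lab : D → Fin n) (rep : Fin n → D)
    (pos : D → ℕ) (h1 : ∀ d, lab (τ d) = lab d) (h2 : ∀ k, lab (rep k) = k)
    (h3 : ∀ d, d = rep (lab d) ∨ pos (τ.symm d) < pos d) : numOrbits τ = n := by
  have hconst : ∀ d, ∀ j : ℤ, lab ((τ ^ j) d) = lab d := by
    have hnat : ∀ j : ℕ, ∀ d, lab ((τ ^ j) d) = lab d := by
      intro j
      induction j with
      | zero => intro d; simp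
      | succ j ih =>
        intro d
        rw [pow_succ, Equiv.Perm.mul_apply, ih, h1]
    intro d j
    obtain ⟨m, rfl | rfl⟩ := j.eq_nat_or_neg
    · rw [zpow_natCast]; exact hnat m d
    · have := hnat m ((τ ^ (-(m : ℤ))) d)
      rw [← Equiv.Perm.mul_apply, ← zpow_natCast, ← zpow_add, add_neg_cancel, zpow_zero,
        Equiv.Perm.one_apply] at this
      exact this.symm
  have hreach : ∀ m : ℕ, ∀ d, pos d ≤ m → τ.SameCycle (rep (lab d)) d := by
    intro m
    induction m with
    | zero =>
      intro d hd
      rcases h3 d with h | h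
      · rw [← h]
      · omega
    | succ m ih =>
      intro d hd
      rcases h3 d with h | h
      · rw [← h]
      · have h4 := ih (τ.symm d) (by omega)
        have h5 : lab (τ.symm d) = lab d := by
          have := h1 (τ.symm d)
          rw [Equiv.apply_symm_apply] at this
          exact this.symm
        rw [h5, ← Equiv.Perm.sameCycle_apply_right, Equiv.apply_symm_apply] at h4
        exact h4
  have e : Quotient (Equiv.Perm.SameCycle.setoid τ) ≃ Fin n :=
    { toFun := Quotient.lift lab (by
        rintro a b ⟨j, rfl⟩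
        exact (hconst a j).symm)
      invFun := fun k => Quotient.mk _ (rep k)
      left_inv := by
        intro q
        induction q using Quotient.inductionOn with
        | h d => exact Quotient.sound (hreach (pos d) d le_rfl)
      right_inv := fun k => h2 k }
  unfold numOrbits
  rw [Nat.card_congr e, Nat.card_eq_fintype_card, Fintype.card_fin]

theorem numOrbitsTwo_eq_one {D : Type} (σ τ : Equiv.Perm D) (d0 : D)
    (h : ∀ d, ∃ g ∈ Subgroup.closure ({σ, τ} : Set (Equiv.Perm D)), g d0 = d) :
    numOrbitsTwo σ τ = 1 := by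
  unfold numOrbitsTwo
  rw [Nat.card_eq_one_iff_unique]
  constructor
  · constructor
    intro a b
    induction a using Quotient.inductionOn with
    | h a =>
      induction b using Quotient.inductionOn with
      | h b =>
        apply Quotient.sound
        obtain ⟨g, hg, hga⟩ := h a
        obtain ⟨g', hg', hgb⟩ := h b
        refine ⟨⟨g * g'⁻¹, mul_mem hg (inv_mem hg')⟩, ?_⟩
        show (g * g'⁻¹) b = a
        have h5 : g'⁻¹ (g' d0) = d0 := by
          rw [← Equiv.Perm.mul_apply, inv_mul_cancel, Equiv.Perm.one_apply]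
        rw [Equiv.Perm.mul_apply, ← hgb, h5, hga]
  · exact ⟨Quotient.mk _ d0⟩

theorem sameCycle_mem_closure {D : Type} (σ τ : Equiv.Perm D) {a b : D} (h : σ.SameCycle a b) :
    ∃ g ∈ Subgroup.closure ({σ, τ} : Set (Equiv.Perm D)), g a = b := by
  obtain ⟨j, hj⟩ := h
  exact ⟨σ ^ j, Subgroup.zpow_mem _ (Subgroup.subset_closure (by simp)) j, hj⟩

end Pool.Agent.MP_e21097_co
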