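import Mathlib
import Pool.Agent.Lib.MP_e21097_co.Defs
import Pool.Agent.Lib.MP_e21097_co.Orbits

set_option autoImplicit false
set_option maxRecDepth 100000

namespace Pool.Agent.MP_e21097_co.Ex

open Pool.Agent.MP_e21097_co

/-- every `k`-list-assignment of `G` admits a packing -/
def ListPackable {V : Type} (G : SimpleGraph V) (k : ℕ) : Prop :=
  ∀ L : V → Finset ℕ, (∀ v, (L v).card = k) →
    ∃ c : Fin k → V → ℕ,
      (∀ i v, c i v ∈ L v) ∧
      (∀ i u v, G.Adj u v → c i u ≠ c i v) ∧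
      (∀ v i j, i ≠ j → c i v ≠ c j v)

@[irreducible] def masks : List ℕ :=
  [307445511168991228, 1157443028019007484, 8195, 2129923, 34078723, 8724152323, 2147483651,
  137438953475, 716331825496067, 9042383626829827, 16323296849404362755, 576460752303423491,
  40961, 86020, 40962, 151560, 8194, 32770, 2621441, 5505040, 2621442, 9699336, 524290, 2097154,
  167772161, 352321552, 167772162, 620757024, 33554434, 134217730, 10737418241, 22548578368,
  10737418242, 39728447520, 2147483650, 8589934594, 2886218022913, 343597383808, 1786706395138,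
  343597383936, 274877907200, 68719476992, 325455441821697, 21990232555776, 606930418532354,
  21990232556032, 422212465065985, 70368744177920, 74766790688768, 17592186044672,
  83316593106354177, 5629499534214144, 155374187144282114, 5629499534213632, 108086391056891905,
  18014398509483008, 19140298416324608, 4503599627371520, 12105675798371893249,
  1441151880758560768, 7493989779944505346, 1441151880758559744, 1152921504606848000,
  288230376151712768]

@[irreducible] def lsts : List (ℕ × ℕ × ℕ) :=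
  [(0, 1, 2), (0, 3, 4), (0, 1, 2), (2, 3, 4), (0, 1, 2), (1, 3, 4), (0, 1, 2), (1, 2, 3), (1, 2,
  4), (1, 3, 4), (1, 2, 3), (1, 2, 4), (0, 2, 3), (0, 2, 3), (1, 2, 4), (0, 1, 3), (0, 1, 3),
  (0, 1, 3), (0, 2, 4), (0, 2, 4), (1, 2, 3), (0, 1, 4), (0, 1, 4), (0, 1, 4), (0, 1, 3), (0, 1,
  3), (1, 2, 4), (0, 2, 3), (0, 1, 3), (0, 1, 3), (0, 1, 4), (0, 1, 4), (1, 2, 3), (0, 2, 4),
  (0, 1, 4), (0, 1, 4), (0, 2, 4), (0, 2, 4), (2, 3, 4), (0, 1, 3), (0, 2, 4), (0, 2, 4), (2, 3,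
  4), (0, 1, 3), (0, 2, 4), (0, 2, 4), (1, 2, 4), (1, 2, 4), (0, 2, 4), (0, 2, 4), (2, 3, 4),
  (0, 1, 4), (0, 2, 3), (0, 2, 3), (1, 2, 3), (1, 2, 3), (0, 2, 3), (0, 2, 3), (0, 2, 3), (0, 2,
  3), (2, 3, 4), (0, 1, 4), (0, 2, 3), (0, 2, 3)]

@[irreducible] def cols : List ℕ :=
  [0, 0, 1, 1, 1, 1, 1, 1, 1, 1, 1, 1, 1, 0, 1, 0, 1, 1, 1, 0, 1, 0, 1, 1, 1, 0, 1, 0, 1, 1, 1, 0,
  1, 0, 1, 1, 1, 0, 1, 0, 0, 0, 1, 0, 1, 0, 1, 0, 0, 0, 1, 0, 1, 0, 1, 0, 0, 0, 1, 0, 1, 0, 0,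
  0]

@[irreducible] def adjb (u v : ℕ) : Bool := (masks.getD u 0).testBit v

theorem adjb_symm_check : ((List.range 64).all fun u => (List.range 64).all fun v =>
    adjb u v == adjb v u) = true := by decide +kernel

theorem adjb_symm {u v : ℕ} (hu : u < 64) (hv : v < 64) : adjb u v = adjb v u := by
  have h := adjb_symm_check
  rw [List.all_eq_true] at h
  have h1 := h u (List.mem_range.2 hu)
  rw [List.all_eq_true] at h1
  have h2 := h1 v (List.mem_range.2 hv)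
  exact beq_iff_eq.1 h2

theorem adjb_irrefl_check : ((List.range 64).all fun u => !adjb u u) = true := by decide +kernel

theorem adjb_irrefl {u : ℕ} (hu : u < 64) : adjb u u = false := by
  have h := adjb_irrefl_check
  rw [List.all_eq_true] at h
  have h1 := h u (List.mem_range.2 hu)
  simpa using h1

def H : SimpleGraph (Fin 64) where
  Adj u v := adjb u.val v.val = true
  symm := ⟨fun u v h => by rw [adjb_symm v.isLt u.isLt]; exact h⟩
  loopless := ⟨fun u h => by rw [adjb_irrefl u.isLt] at h; exact Bool.noConfusion h⟩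

theorem H_adj {u v : Fin 64} : H.Adj u v ↔ adjb u.val v.val = true := Iff.rfl

/-! bipartite -/

theorem cols_check : ((List.range 64).all fun u => (List.range 64).all fun v =>
    !adjb u v || cols.getD u 0 != cols.getD v 0) = true := by decide +kernel

theorem cols_le : ((List.range 64).all fun u => decide (cols.getD u 0 < 2)) = true := by
  decide +kernel

theorem H_bip : H.Colorable 2 := by
  have hlt : ∀ u : Fin 64, cols.getD u.val 0 < 2 := by
    intro u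
    have h := cols_le
    rw [List.all_eq_true] at h
    exact of_decide_eq_true (h u.val (List.mem_range.2 u.isLt))
  refine ⟨SimpleGraph.Coloring.mk (fun u => (⟨cols.getD u.val 0, hlt u⟩ : Fin 2)) ?_⟩
  intro u v huv hc
  have h := cols_check
  rw [List.all_eq_true] at h
  have h1 := h u.val (List.mem_range.2 u.isLt)
  rw [List.all_eq_true] at h1
  have h2 := h1 v.val (List.mem_range.2 v.isLt)
  rw [H_adj.1 huv] at h2
  have hc' : cols.getD u.val 0 = cols.getD v.val 0 := congrArg Fin.val hc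
  rw [hc'] at h2
  simp at h2

@[irreducible] def Ls (v : ℕ) : ℕ × ℕ × ℕ := lsts.getD v (0, 1, 2)

def arr (t : ℕ × ℕ × ℕ) : List (ℕ × ℕ × ℕ) :=
  [(t.1, t.2.1, t.2.2), (t.1, t.2.2, t.2.1), (t.2.1, t.1, t.2.2), (t.2.1, t.2.2, t.1),
    (t.2.2, t.1, t.2.1), (t.2.2, t.2.1, t.1)]

theorem nbeq {a b : ℕ} (h : a ≠ b) : Nat.beq a b = false := by
  cases hb : Nat.beq a b with
  | false => rfl
  | true => exact absurd (Nat.eq_of_beq_eq_true hb) h

def compat (s t : ℕ × ℕ × ℕ) : Bool :=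
  !(Nat.beq s.1 t.1) && !(Nat.beq s.2.1 t.2.1) && !(Nat.beq s.2.2 t.2.2)

def fits (v : ℕ) (t : ℕ × ℕ × ℕ) (asg : List (ℕ × ℕ × ℕ × ℕ)) : Bool :=
  asg.all fun p => !(adjb v p.1) || compat t p.2

def dfs : List ℕ → List (ℕ × ℕ × ℕ × ℕ) → Bool
  | [], _ => true
  | v :: vs, asg => (arr (Ls v)).any fun t => fits v t asg && dfs vs ((v, t) :: asg)

/-- `true` if every value of the vertex `v` is refuted by one of the orders `os` -/
def refuted (v : ℕ) (os : List (List ℕ)) (asg : List (ℕ × ℕ × ℕ × ℕ)) : Bool :=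
  (arr (Ls v)).all fun t => !(fits v t asg) || os.any fun o => !(dfs o ((v, t) :: asg))

theorem dfs_sound (τ : ℕ → ℕ × ℕ × ℕ) (hτ : ∀ v < 64, τ v ∈ arr (Ls v))
    (hc : ∀ u < 64, ∀ v < 64, adjb u v = true → compat (τ u) (τ v) = true) :
    ∀ (vs : List ℕ) (asg : List (ℕ × ℕ × ℕ × ℕ)), (∀ v ∈ vs, v < 64) →
      (∀ p ∈ asg, p.1 < 64 ∧ p.2 = τ p.1) → dfs vs asg = true := by
  intro vs
  induction vs with
  | nil => intro asg _ _; rfl
  | cons v vs ih =>
    intro asg hvs hasg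
    have hv : v < 64 := hvs v (List.mem_cons_self)
    rw [dfs, List.any_eq_true]
    refine ⟨τ v, hτ v hv, ?_⟩
    rw [Bool.and_eq_true]
    refine ⟨?_, ?_⟩
    · rw [fits, List.all_eq_true]
      intro p hp
      obtain ⟨hp1, hp2⟩ := hasg p hp
      by_cases ha : adjb v p.1 = true
      · rw [hp2, hc v hv p.1 hp1 ha]; simp
      · simp only [Bool.not_eq_true] at ha
        rw [ha]; simp
    · apply ih
      · intro w hw; exact hvs w (List.mem_cons_of_mem _ hw)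
      · intro p hp
        rw [List.mem_cons] at hp
        rcases hp with rfl | hp
        · exact ⟨hv, rfl⟩
        · exact hasg p hp

theorem fits_sound (τ : ℕ → ℕ × ℕ × ℕ)
    (hc : ∀ u < 64, ∀ v < 64, adjb u v = true → compat (τ u) (τ v) = true)
    (v : ℕ) (hv : v < 64) (asg : List (ℕ × ℕ × ℕ × ℕ))
    (hasg : ∀ p ∈ asg, p.1 < 64 ∧ p.2 = τ p.1) : fits v (τ v) asg = true := by
  rw [fits, List.all_eq_true]
  intro p hp
  obtain ⟨hp1, hp2⟩ := hasg p hp
  by_cases ha : adjb v p.1 = true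
  · rw [hp2, hc v hv p.1 hp1 ha]; simp
  · simp only [Bool.not_eq_true] at ha
    rw [ha]; simp

theorem refuted_sound (τ : ℕ → ℕ × ℕ × ℕ) (hτ : ∀ v < 64, τ v ∈ arr (Ls v))
    (hc : ∀ u < 64, ∀ v < 64, adjb u v = true → compat (τ u) (τ v) = true)
    (v : ℕ) (hv : v < 64) (os : List (List ℕ)) (hos : ∀ o ∈ os, ∀ w ∈ o, w < 64)
    (asg : List (ℕ × ℕ × ℕ × ℕ)) (hasg : ∀ p ∈ asg, p.1 < 64 ∧ p.2 = τ p.1)
    (h : refuted v os asg = true) : False := by
  rw [refuted, List.all_eq_true] at h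
  have h1 := h (τ v) (hτ v hv)
  rw [fits_sound τ hc v hv asg hasg, Bool.not_true, Bool.false_or, List.any_eq_true] at h1
  obtain ⟨o, ho, h2⟩ := h1
  have h3 := dfs_sound τ hτ hc o ((v, τ v) :: asg) (hos o ho) (by
    intro p hp
    rw [List.mem_cons] at hp
    rcases hp with rfl | hp
    · exact ⟨hv, rfl⟩
    · exact hasg p hp)
  rw [h3] at h2
  simp at h2

/-- for every arrangement of the second vertex: branching vertex and orders -/
def plan : List ((ℕ × ℕ × ℕ) × ℕ × List (List ℕ)) :=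
  [((0, 3, 4), 8, [[41, 36, 37, 7, 38, 39, 40], [44, 49, 45, 9, 42, 43, 47, 46, 48]]),
   ((0, 4, 3), 10, [[58, 63, 11, 59, 60, 61, 62], [57, 52, 53, 9, 50, 51, 55, 54, 56]]),
   ((3, 0, 4), 2, [[12, 13, 16, 3, 15, 14, 17]]),
   ((3, 4, 0), 4, [[25, 28, 24, 5, 27, 26, 29]]),
   ((4, 0, 3), 4, [[18, 19, 22, 3, 21, 20, 23]]),
   ((4, 3, 0), 6, [[31, 34, 30, 5, 33, 32, 35]])]

theorem plan_check : (plan.all fun q => refuted q.2.1 q.2.2 [(1, q.1), (0, (0, 1, 2))]) = true := by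
  decide +kernel

theorem plan_bound : (plan.all fun q => Nat.blt q.2.1 64 && q.2.2.all fun o =>
    o.all fun w => Nat.blt w 64) = true := by decide +kernel

theorem plan_complete : ((arr (Ls 1)).all fun t => plan.any fun q => q.1 == t) = true := by
  decide +kernel

theorem no_tau (τ : ℕ → ℕ × ℕ × ℕ) (hτ : ∀ v < 64, τ v ∈ arr (Ls v))
    (hc : ∀ u < 64, ∀ v < 64, adjb u v = true → compat (τ u) (τ v) = true)
    (h0 : τ 0 = (0, 1, 2)) : False := by
  have h1 := plan_complete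
  rw [List.all_eq_true] at h1
  have h2 := h1 (τ 1) (hτ 1 (by norm_num))
  rw [List.any_eq_true] at h2
  obtain ⟨q, hq, hq1⟩ := h2
  have hq1 : q.1 = τ 1 := beq_iff_eq.1 hq1
  have h3 := plan_check
  rw [List.all_eq_true] at h3
  have h3 := h3 q hq
  have h4 := plan_bound
  rw [List.all_eq_true] at h4
  have h4 := h4 q hq
  rw [Bool.and_eq_true] at h4
  obtain ⟨h5, h6⟩ := h4
  have h5 : q.2.1 < 64 := by simpa using h5
  have h6 : ∀ o ∈ q.2.2, ∀ w ∈ o, w < 64 := by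
    intro o ho w hw
    rw [List.all_eq_true] at h6
    have h7 := h6 o ho
    rw [List.all_eq_true] at h7
    have h8 := h7 w hw
    simpa using h8
  refine refuted_sound τ hτ hc q.2.1 h5 q.2.2 h6 _ ?_ h3
  intro p hp
  rw [List.mem_cons, List.mem_singleton] at hp
  rcases hp with rfl | rfl
  · exact ⟨by norm_num, hq1⟩
  · exact ⟨by norm_num, h0.symm⟩

/-- the lists as finsets -/
def LF (v : Fin 64) : Finset ℕ := {(Ls v.val).1, (Ls v.val).2.1, (Ls v.val).2.2}

theorem Ls_check : ((List.range 64).all fun v => Nat.blt (Ls v).1 (Ls v).2.1 &&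
    Nat.blt (Ls v).2.1 (Ls v).2.2) = true := by decide +kernel

theorem Ls_lt {v : ℕ} (hv : v < 64) : (Ls v).1 < (Ls v).2.1 ∧ (Ls v).2.1 < (Ls v).2.2 := by
  have h := Ls_check
  rw [List.all_eq_true] at h
  have h1 := h v (List.mem_range.2 hv)
  simpa using h1

theorem LF_card (v : Fin 64) : (LF v).card = 3 := by
  obtain ⟨h1, h2⟩ := Ls_lt v.isLt
  rw [LF, Finset.card_eq_three]
  exact ⟨_, _, _, h1.ne, (h1.trans h2).ne, h2.ne, rfl⟩

theorem arr_mem (x y z p q r : ℕ) (hp : p = x ∨ p = y ∨ p = z) (hq : q = x ∨ q = y ∨ q = z)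
    (hr : r = x ∨ r = y ∨ r = z) (h1 : p ≠ q) (h2 : p ≠ r) (h3 : q ≠ r) :
    (p, q, r) ∈ arr (x, y, z) := by
  simp only [arr, List.mem_cons, Prod.mk.injEq, List.not_mem_nil, or_false]
  rcases hp with rfl | rfl | rfl <;> rcases hq with rfl | rfl | rfl <;>
    rcases hr with rfl | rfl | rfl <;> simp_all

theorem not_packable_three : ¬ ListPackable H 3 := by
  intro hP
  obtain ⟨c, hc1, hc2, hc3⟩ := hP LF LF_card
  -- normalise the rows at the first vertex
  have hval : ∀ i, c i 0 < 3 := by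
    intro i
    have h := hc1 i 0
    have h' : LF 0 = {0, 1, 2} := by decide +kernel
    rw [h'] at h
    simp only [Finset.mem_insert, Finset.mem_singleton] at h
    omega
  have hbij : Function.Bijective (fun i : Fin 3 => (⟨c i 0, hval i⟩ : Fin 3)) := by
    rw [Finite.injective_iff_bijective.symm]
    intro i j hij
    by_contra hne
    exact hc3 0 i j hne (congrArg Fin.val hij)
  set e := Equiv.ofBijective _ hbij with he
  have hσ : ∀ j : Fin 3, c (e.symm j) 0 = j.val := by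
    intro j
    have := congrArg Fin.val (e.apply_symm_apply j)
    exact this
  set τ : ℕ → ℕ × ℕ × ℕ := fun v => if h : v < 64 then
    (c (e.symm 0) ⟨v, h⟩, c (e.symm 1) ⟨v, h⟩, c (e.symm 2) ⟨v, h⟩) else (0, 1, 2) with hτdef
  have hτ : ∀ v < 64, τ v ∈ arr (Ls v) := by
    intro v hv
    simp only [hτdef, dif_pos hv]
    have hmem : ∀ i, c i ⟨v, hv⟩ = (Ls v).1 ∨ c i ⟨v, hv⟩ = (Ls v).2.1 ∨
        c i ⟨v, hv⟩ = (Ls v).2.2 := by
      intro i
      have h := hc1 i ⟨v, hv⟩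
      simpa [LF] using h
    have hd : ∀ i j : Fin 3, i ≠ j → c (e.symm i) ⟨v, hv⟩ ≠ c (e.symm j) ⟨v, hv⟩ := by
      intro i j hij
      exact hc3 _ _ _ (fun h => hij (e.symm.injective h))
    exact arr_mem (Ls v).1 (Ls v).2.1 (Ls v).2.2 _ _ _ (hmem _) (hmem _) (hmem _)
      (hd 0 1 (by decide)) (hd 0 2 (by decide)) (hd 1 2 (by decide))
  have hcomp : ∀ u < 64, ∀ v < 64, adjb u v = true → compat (τ u) (τ v) = true := by
    intro u hu v hv huv
    simp only [hτdef, dif_pos hu, dif_pos hv, compat]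
    have hadj : H.Adj ⟨u, hu⟩ ⟨v, hv⟩ := huv
    have h0 := hc2 (e.symm 0) _ _ hadj
    have h1 := hc2 (e.symm 1) _ _ hadj
    have h2 := hc2 (e.symm 2) _ _ hadj
    rw [nbeq h0, nbeq h1, nbeq h2]
    rfl
  refine no_tau τ hτ hcomp ?_
  simp only [hτdef, dif_pos (show (0:ℕ) < 64 by norm_num)]
  have h0 := hσ 0
  have h1 := hσ 1
  have h2 := hσ 2
  simp only [Fin.val_zero, Fin.val_one, Fin.val_two] at h0 h1 h2
  have e0 : (⟨0, by norm_num⟩ : Fin 64) = 0 := rfl
  rw [e0, h0, h1, h2]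

theorem not_packable_one : ¬ ListPackable H 1 := by
  intro hP
  obtain ⟨c, hc1, hc2, _⟩ := hP (fun _ => {0}) (fun _ => rfl)
  have hadj : H.Adj 0 2 := by
    rw [H_adj]; decide +kernel
  apply hc2 0 0 2 hadj
  have h1 := hc1 0 0
  have h2 := hc1 0 2
  rw [Finset.mem_singleton] at h1 h2
  rw [h1, h2]

theorem not_packable_two : ¬ ListPackable H 2 := by
  intro hP
  obtain ⟨c, hc1, hc2, hc3⟩ := hP
    (fun v => if v = 0 then {0, 1} else if v = 2 then {0, 1} else if v = 1 then {0, 2} else {1, 2})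
    (fun v => by split_ifs <;> rfl)
  have a02 : H.Adj 0 2 := by rw [H_adj]; decide +kernel
  have a21 : H.Adj 2 1 := by rw [H_adj]; decide +kernel
  have a13 : H.Adj 1 3 := by rw [H_adj]; decide +kernel
  have a30 : H.Adj 3 0 := by rw [H_adj]; decide +kernel
  have m0 : ∀ i, c i 0 = 0 ∨ c i 0 = 1 := by
    intro i; have := hc1 i 0; simpa using this
  have m2 : ∀ i, c i 2 = 0 ∨ c i 2 = 1 := by
    intro i; have := hc1 i 2; simpa using this
  have m1 : ∀ i, c i 1 = 0 ∨ c i 1 = 2 := by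
    intro i; have := hc1 i 1; simpa using this
  have m3 : ∀ i, c i 3 = 1 ∨ c i 3 = 2 := by
    intro i; have := hc1 i 3; simpa using this
  have d : ∀ v, c 0 v ≠ c 1 v := fun v => hc3 v 0 1 (by decide)
  have := m0 0; have := m0 1; have := m1 0; have := m1 1
  have := m2 0; have := m2 1; have := m3 0; have := m3 1
  have := d 0; have := d 1; have := d 2; have := d 3
  have := hc2 0 _ _ a02; have := hc2 1 _ _ a02
  have := hc2 0 _ _ a21; have := hc2 1 _ _ a21
  have := hc2 0 _ _ a13; have := hc2 1 _ _ a13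
  have := hc2 0 _ _ a30; have := hc2 1 _ _ a30
  omega

/-! planarity -/

@[irreducible] def tbl : List (List (ℕ × ℕ × ℕ × ℕ × ℕ × ℕ)) :=
  [
   [(2, 12, 11, 0, 0, 0), (12, 3, 2, 1, 1, 0), (3, 18, 12, 2, 2, 0), (18, 4, 3, 3, 3, 0),
    (4, 24, 18, 4, 4, 0), (24, 5, 4, 5, 5, 0), (5, 30, 24, 6, 6, 0), (30, 6, 5, 7, 7, 0),
    (6, 7, 30, 8, 8, 0), (7, 36, 6, 9, 9, 0), (36, 8, 7, 10, 10, 0), (8, 46, 36, 11, 11, 0),
    (46, 42, 8, 12, 12, 0), (42, 9, 46, 13, 13, 0), (9, 50, 42, 14, 14, 0),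
    (50, 54, 9, 15, 15, 0), (54, 10, 50, 16, 16, 0), (10, 58, 54, 17, 17, 0),
    (58, 11, 10, 18, 18, 0), (11, 2, 58, 19, 19, 0)],
   [(11, 60, 2, 0, 0, 2), (60, 10, 11, 1, 20, 0), (10, 52, 60, 2, 21, 0), (52, 9, 10, 3, 22, 0),
    (9, 44, 52, 4, 23, 0), (44, 8, 9, 5, 24, 0), (8, 38, 44, 6, 25, 0), (38, 7, 8, 7, 26, 0),
    (7, 6, 38, 8, 27, 0), (6, 34, 7, 9, 9, 2), (34, 32, 6, 10, 28, 0), (32, 35, 34, 11, 29, 0),
    (35, 5, 32, 12, 30, 0), (5, 29, 35, 13, 31, 0), (29, 26, 5, 14, 32, 0),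
    (26, 28, 29, 15, 33, 0), (28, 4, 26, 16, 34, 0), (4, 22, 28, 17, 35, 0),
    (22, 20, 4, 18, 36, 0), (20, 23, 22, 19, 37, 0), (23, 3, 20, 20, 38, 0),
    (3, 17, 23, 21, 39, 0), (17, 14, 3, 22, 40, 0), (14, 16, 17, 23, 41, 0),
    (16, 2, 14, 24, 42, 0), (2, 11, 16, 25, 43, 0)],
   [(0, 1, 13, 0, 1, 3), (1, 13, 0, 1, 0, 1), (13, 0, 1, 2, 43, 1)],
   [(0, 15, 21, 0, 3, 3), (15, 1, 0, 1, 2, 1), (1, 21, 15, 2, 40, 3), (21, 0, 1, 3, 39, 1)],
   [(0, 19, 25, 0, 5, 3), (19, 1, 0, 1, 4, 1), (1, 25, 19, 2, 36, 3), (25, 0, 1, 3, 35, 1)],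
   [(0, 27, 33, 0, 7, 3), (27, 1, 0, 1, 6, 1), (1, 33, 27, 2, 32, 3), (33, 0, 1, 3, 31, 1)],
   [(0, 31, 1, 0, 9, 3), (31, 1, 0, 1, 8, 1), (1, 0, 31, 2, 28, 3)],
   [(37, 0, 1, 0, 27, 1), (0, 1, 37, 1, 10, 3), (1, 37, 0, 2, 9, 1)],
   [(43, 47, 49, 0, 44, 0), (47, 0, 43, 1, 45, 0), (0, 41, 47, 2, 12, 3), (41, 39, 0, 3, 11, 1),
    (39, 40, 41, 4, 46, 0), (40, 1, 39, 5, 47, 0), (1, 49, 40, 6, 26, 3), (49, 43, 1, 7, 25, 1)],
   [(0, 45, 53, 0, 15, 3), (45, 1, 0, 1, 14, 1), (1, 53, 45, 2, 24, 3), (53, 0, 1, 3, 23, 1)],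
   [(61, 63, 62, 0, 48, 0), (63, 0, 61, 1, 49, 0), (0, 55, 63, 2, 18, 3), (55, 51, 0, 3, 17, 1),
    (51, 57, 55, 4, 50, 0), (57, 1, 51, 5, 51, 0), (1, 62, 57, 6, 22, 3), (62, 61, 1, 7, 21, 1)],
   [(0, 59, 1, 0, 0, 3), (59, 1, 0, 1, 19, 1), (1, 0, 59, 2, 20, 3)],
   [(0, 13, 15, 0, 2, 3), (13, 15, 0, 1, 1, 1), (15, 0, 13, 2, 52, 0)],
   [(12, 2, 14, 0, 52, 3), (2, 16, 12, 1, 1, 2), (16, 14, 2, 2, 43, 2), (14, 12, 16, 3, 42, 2)],
   [(15, 13, 1, 0, 41, 1), (13, 1, 15, 1, 52, 2), (1, 15, 13, 2, 42, 3)],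
   [(3, 12, 17, 0, 40, 2), (12, 14, 3, 1, 2, 2), (14, 17, 12, 2, 52, 1), (17, 3, 14, 3, 41, 2)],
   [(13, 1, 1, 0, 42, 1), (1, 13, 13, 1, 43, 3)],
   [(15, 1, 1, 0, 40, 1), (1, 15, 15, 1, 41, 3)],
   [(0, 21, 19, 0, 4, 3), (21, 19, 0, 1, 3, 1), (19, 0, 21, 2, 53, 0)],
   [(4, 18, 22, 0, 36, 2), (18, 20, 4, 1, 4, 2), (20, 22, 18, 2, 53, 1), (22, 4, 20, 3, 37, 2)],
   [(19, 21, 1, 0, 37, 1), (21, 1, 19, 1, 53, 2), (1, 19, 21, 2, 38, 3)],
   [(18, 3, 20, 0, 53, 3), (3, 23, 18, 1, 3, 2), (23, 20, 3, 2, 39, 2), (20, 18, 23, 3, 38, 2)],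
   [(19, 1, 1, 0, 36, 1), (1, 19, 19, 1, 37, 3)],
   [(21, 1, 1, 0, 38, 1), (1, 21, 21, 1, 39, 3)],
   [(0, 25, 27, 0, 6, 3), (25, 27, 0, 1, 5, 1), (27, 0, 25, 2, 54, 0)],
   [(24, 4, 26, 0, 54, 3), (4, 28, 24, 1, 5, 2), (28, 26, 4, 2, 35, 2), (26, 24, 28, 3, 34, 2)],
   [(27, 25, 1, 0, 33, 1), (25, 1, 27, 1, 54, 2), (1, 27, 25, 2, 34, 3)],
   [(5, 24, 29, 0, 32, 2), (24, 26, 5, 1, 6, 2), (26, 29, 24, 2, 54, 1), (29, 5, 26, 3, 33, 2)],
   [(25, 1, 1, 0, 34, 1), (1, 25, 25, 1, 35, 3)],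
   [(27, 1, 1, 0, 32, 1), (1, 27, 27, 1, 33, 3)],
   [(0, 33, 31, 0, 8, 3), (33, 31, 0, 1, 7, 1), (31, 0, 33, 2, 55, 0)],
   [(6, 30, 34, 0, 28, 2), (30, 32, 6, 1, 8, 2), (32, 34, 30, 2, 55, 1), (34, 6, 32, 3, 29, 2)],
   [(31, 33, 1, 0, 29, 1), (33, 1, 31, 1, 55, 2), (1, 31, 33, 2, 30, 3)],
   [(30, 5, 32, 0, 55, 3), (5, 35, 30, 1, 7, 2), (35, 32, 5, 2, 31, 2), (32, 30, 35, 3, 30, 2)],
   [(31, 1, 1, 0, 28, 1), (1, 31, 31, 1, 29, 3)],
   [(33, 1, 1, 0, 30, 1), (1, 33, 33, 1, 31, 3)],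
   [(0, 37, 41, 0, 11, 3), (37, 39, 0, 1, 10, 1), (39, 41, 37, 2, 56, 0), (41, 0, 39, 3, 46, 2)],
   [(36, 7, 38, 0, 56, 3), (7, 38, 36, 1, 10, 2), (38, 36, 7, 2, 27, 2)],
   [(40, 39, 1, 0, 26, 1), (39, 37, 40, 1, 47, 2), (37, 1, 39, 2, 56, 2), (1, 40, 37, 3, 27, 3)],
   [(36, 38, 8, 0, 46, 1), (38, 8, 36, 1, 56, 1), (8, 36, 38, 2, 47, 3)],
   [(8, 38, 38, 0, 26, 2), (38, 8, 8, 1, 47, 1)],
   [(36, 8, 8, 0, 11, 2), (8, 36, 36, 1, 46, 3)],
   [(0, 48, 45, 0, 14, 3), (48, 43, 0, 1, 13, 1), (43, 45, 48, 2, 45, 4), (45, 0, 43, 3, 57, 0)],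
   [(42, 8, 44, 0, 57, 3), (8, 44, 42, 1, 45, 5), (44, 42, 8, 2, 44, 1)],
   [(45, 43, 1, 0, 24, 1), (43, 49, 45, 1, 57, 2), (49, 1, 43, 2, 44, 2), (1, 45, 49, 3, 25, 3)],
   [(9, 42, 44, 0, 24, 2), (42, 44, 9, 1, 14, 2), (44, 9, 42, 2, 57, 1)],
   [(0, 47, 48, 0, 13, 3), (47, 48, 0, 1, 12, 1), (48, 0, 47, 2, 45, 2)],
   [(46, 8, 8, 0, 45, 1), (8, 46, 46, 1, 12, 2)],
   [(46, 42, 42, 0, 13, 2), (42, 46, 46, 1, 45, 3)],
   [(8, 44, 44, 0, 44, 3), (44, 8, 8, 1, 25, 2)],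
   [(56, 0, 51, 0, 50, 2), (0, 53, 56, 1, 16, 3), (53, 51, 0, 2, 15, 1), (51, 56, 53, 3, 58, 0)],
   [(50, 52, 10, 0, 50, 1), (52, 10, 50, 1, 58, 1), (10, 50, 52, 2, 51, 3)],
   [(57, 51, 1, 0, 22, 1), (51, 53, 57, 1, 51, 2), (53, 1, 51, 2, 58, 2), (1, 57, 53, 3, 23, 3)],
   [(50, 9, 52, 0, 58, 3), (9, 52, 50, 1, 15, 2), (52, 50, 9, 2, 23, 2)],
   [(0, 56, 55, 0, 17, 3), (56, 55, 0, 1, 16, 1), (55, 0, 56, 2, 50, 4)],
   [(54, 10, 10, 0, 17, 2), (10, 54, 54, 1, 50, 5)],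
   [(54, 50, 50, 0, 50, 3), (50, 54, 54, 1, 16, 2)],
   [(10, 52, 52, 0, 22, 2), (52, 10, 10, 1, 51, 1)],
   [(0, 63, 59, 0, 19, 3), (63, 61, 0, 1, 18, 1), (61, 59, 63, 2, 49, 2), (59, 0, 61, 3, 59, 0)],
   [(58, 60, 11, 0, 19, 2), (60, 11, 58, 1, 59, 1), (11, 58, 60, 2, 20, 2)],
   [(59, 61, 1, 0, 20, 1), (61, 62, 59, 1, 59, 2), (62, 1, 61, 2, 48, 2), (1, 59, 62, 3, 21, 3)],
   [(58, 10, 60, 0, 59, 3), (10, 60, 58, 1, 49, 3), (60, 58, 10, 2, 48, 1)],
   [(10, 60, 60, 0, 48, 3), (60, 10, 10, 1, 21, 2)],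
   [(58, 10, 10, 0, 49, 1), (10, 58, 58, 1, 18, 2)]
  ]

@[irreducible] def reps : List (ℕ × ℕ) :=
  [(0, 2), (0, 12), (0, 3), (0, 18), (0, 4), (0, 24), (0, 5), (0, 30), (0, 6), (0, 7), (0, 36),
   (0, 8), (0, 46), (0, 42), (0, 9), (0, 50), (0, 54), (0, 10), (0, 58), (0, 11), (1, 60),
   (1, 10), (1, 52), (1, 9), (1, 44), (1, 8), (1, 38), (1, 7), (1, 34), (1, 32), (1, 35), (1, 5),
   (1, 29), (1, 26), (1, 28), (1, 4), (1, 22), (1, 20), (1, 23), (1, 3), (1, 17), (1, 14),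
   (1, 16), (1, 2), (8, 43), (8, 47), (8, 39), (8, 40), (10, 61), (10, 63), (10, 51), (10, 57),
   (12, 15), (18, 19), (24, 27), (30, 31), (36, 39), (42, 45), (50, 51), (58, 59)]

@[irreducible] def firsts : List ℕ :=
  [2, 11, 0, 0, 0, 0, 0, 37, 43, 0, 61, 0, 0, 12, 15, 3, 13, 15, 0, 4, 19, 18, 19, 21, 0, 24, 27,
   5, 25, 27, 0, 6, 31, 30, 31, 33, 0, 36, 40, 36, 8, 36, 0, 42, 45, 9, 0, 46, 46, 8, 56, 50, 57,
   50, 0, 54, 54, 10, 0, 58, 59, 58, 10, 58]

@[irreducible] def pars : List (ℕ × ℕ) :=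
  [(0, 0), (2, 2), (0, 1), (0, 1), (0, 1), (0, 1), (0, 1), (0, 1), (0, 1), (0, 1), (0, 1), (0, 1),
   (0, 1), (2, 2), (1, 3), (3, 2), (1, 3), (1, 3), (0, 1), (4, 2), (1, 3), (3, 2), (1, 3), (1, 3),
   (0, 1), (4, 2), (1, 3), (5, 2), (1, 3), (1, 3), (0, 1), (6, 2), (1, 3), (5, 2), (1, 3), (1, 3),
   (0, 1), (7, 2), (1, 3), (8, 2), (8, 2), (8, 2), (0, 1), (8, 2), (1, 3), (9, 2), (0, 1), (8, 2),
   (42, 2), (8, 2), (0, 1), (10, 2), (1, 3), (9, 2), (0, 1), (10, 2), (50, 2), (10, 2), (0, 1),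
   (11, 2), (1, 3), (10, 2), (10, 2), (10, 2)]

def ent (u v : ℕ) : ℕ × ℕ × ℕ × ℕ × ℕ × ℕ :=
  ((tbl.getD u []).find? (fun t => Nat.beq t.1 v)).getD (0, 0, 0, 0, 0, 0)

@[irreducible] def nx (u v : ℕ) : ℕ := (ent u v).2.1
@[irreducible] def pv (u v : ℕ) : ℕ := (ent u v).2.2.1
@[irreducible] def ps (u v : ℕ) : ℕ := (ent u v).2.2.2.1
@[irreducible] def lf (u v : ℕ) : ℕ := (ent u v).2.2.2.2.1
@[irreducible] def pf (u v : ℕ) : ℕ := (ent u v).2.2.2.2.2

def dartOK (u v : ℕ) : Bool :=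
  Nat.blt (nx u v) 64 && Nat.blt (pv u v) 64 && adjb u (nx u v) && adjb u (pv u v) &&
  Nat.beq (nx u (pv u v)) v && Nat.beq (pv u (nx u v)) v &&
  (Nat.beq v (firsts.getD u 0) || Nat.blt (ps u (pv u v)) (ps u v)) &&
  Nat.blt (lf u v) 60 && Nat.beq (lf v (nx v u)) (lf u v) &&
  ((Nat.beq u (reps.getD (lf u v) (0, 0)).1 && Nat.beq v (reps.getD (lf u v) (0, 0)).2) ||
    Nat.blt (pf (pv u v) u) (pf u v))

theorem dart_check : ((List.range 64).all fun u => (List.range 64).all fun v =>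
    !adjb u v || dartOK u v) = true := by decide +kernel

theorem first_check : ((List.range 64).all fun u => Nat.blt (firsts.getD u 0) 64 &&
    adjb u (firsts.getD u 0)) = true := by decide +kernel

theorem reps_check : ((List.range 60).all fun k => Nat.blt (reps.getD k (0, 0)).1 64 &&
    Nat.blt (reps.getD k (0, 0)).2 64 && adjb (reps.getD k (0, 0)).1 (reps.getD k (0, 0)).2 &&
    Nat.beq (lf (reps.getD k (0, 0)).1 (reps.getD k (0, 0)).2) k) = true := by decide +kernel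

theorem par_check : ((List.range 64).all fun u => Nat.beq u 0 ||
    (Nat.blt (pars.getD u (0, 0)).1 64 && adjb u (pars.getD u (0, 0)).1 &&
    Nat.blt (pars.getD (pars.getD u (0, 0)).1 (0, 0)).2 (pars.getD u (0, 0)).2)) = true := by
  decide +kernel

theorem dart_ok {u v : ℕ} (hu : u < 64) (hv : v < 64) (h : adjb u v = true) :
    dartOK u v = true := by
  have h0 := dart_check
  rw [List.all_eq_true] at h0
  have h1 := h0 u (List.mem_range.2 hu)
  rw [List.all_eq_true] at h1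
  have h2 := h1 v (List.mem_range.2 hv)
  rw [h] at h2
  simpa using h2

theorem dart_props {u v : ℕ} (hu : u < 64) (hv : v < 64) (h : adjb u v = true) :
    nx u v < 64 ∧ pv u v < 64 ∧ adjb u (nx u v) = true ∧ adjb u (pv u v) = true ∧
    nx u (pv u v) = v ∧ pv u (nx u v) = v ∧
    (v = firsts.getD u 0 ∨ ps u (pv u v) < ps u v) ∧
    lf u v < 60 ∧ lf v (nx v u) = lf u v ∧
    ((u = (reps.getD (lf u v) (0, 0)).1 ∧ v = (reps.getD (lf u v) (0, 0)).2) ∨
      pf (pv u v) u < pf u v) := by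
  have h0 := dart_ok hu hv h
  unfold dartOK at h0
  simp only [Bool.and_eq_true, Bool.or_eq_true, Nat.blt_eq, Nat.beq_eq] at h0
  tauto

/-- the rotation system -/
def sg : Equiv.Perm H.Dart where
  toFun d := ⟨(d.fst, ⟨nx d.fst.val d.snd.val, (dart_props d.fst.isLt d.snd.isLt d.adj).1⟩),
    (dart_props d.fst.isLt d.snd.isLt d.adj).2.2.1⟩
  invFun d := ⟨(d.fst, ⟨pv d.fst.val d.snd.val, (dart_props d.fst.isLt d.snd.isLt d.adj).2.1⟩),
    (dart_props d.fst.isLt d.snd.isLt d.adj).2.2.2.1⟩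
  left_inv d := by
    apply SimpleGraph.Dart.ext
    apply Prod.ext
    · rfl
    · apply Fin.ext
      exact (dart_props d.fst.isLt d.snd.isLt d.adj).2.2.2.2.2.1
  right_inv d := by
    apply SimpleGraph.Dart.ext
    apply Prod.ext
    · rfl
    · apply Fin.ext
      exact (dart_props d.fst.isLt d.snd.isLt d.adj).2.2.2.2.1

def firstDart (u : Fin 64) : H.Dart :=
  ⟨(u, ⟨firsts.getD u.val 0, by
      have h := first_check
      rw [List.all_eq_true] at h
      have h1 := h u.val (List.mem_range.2 u.isLt)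
      simp only [Bool.and_eq_true, Nat.blt_eq] at h1
      exact h1.1⟩), by
    have h := first_check
    rw [List.all_eq_true] at h
    have h1 := h u.val (List.mem_range.2 u.isLt)
    simp only [Bool.and_eq_true, Nat.blt_eq] at h1
    exact h1.2⟩

theorem sg_orbits : numOrbits sg = 64 := by
  apply numOrbits_eq sg 64 (fun d => d.fst) firstDart (fun d => ps d.fst.val d.snd.val)
  · intro d; rfl
  · intro k; rfl
  · intro d
    rcases (dart_props d.fst.isLt d.snd.isLt d.adj).2.2.2.2.2.2.1 with h | h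
    · left
      apply SimpleGraph.Dart.ext
      apply Prod.ext
      · rfl
      · exact Fin.ext h
    · right
      exact h

theorem sg_reach (d : H.Dart) : sg.SameCycle (firstDart d.fst) d := by
  have key : ∀ m : ℕ, ∀ d : H.Dart, ps d.fst.val d.snd.val ≤ m →
      sg.SameCycle (firstDart d.fst) d := by
    intro m
    induction m with
    | zero =>
      intro d hd
      rcases (dart_props d.fst.isLt d.snd.isLt d.adj).2.2.2.2.2.2.1 with h | h
      · have : firstDart d.fst = d := by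
          apply SimpleGraph.Dart.ext
          apply Prod.ext
          · rfl
          · exact Fin.ext h.symm
        rw [this]
      · omega
    | succ m ih =>
      intro d hd
      rcases (dart_props d.fst.isLt d.snd.isLt d.adj).2.2.2.2.2.2.1 with h | h
      · have : firstDart d.fst = d := by
          apply SimpleGraph.Dart.ext
          apply Prod.ext
          · rfl
          · exact Fin.ext h.symm
        rw [this]
      · have h4 := ih (sg.symm d) (by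
          show ps d.fst.val (pv d.fst.val d.snd.val) ≤ m
          omega)
        rw [← Equiv.Perm.sameCycle_apply_right, Equiv.apply_symm_apply] at h4
        exact h4
  exact key _ d le_rfl

theorem sg_rotation : IsRotationSystem H sg := by
  intro d e
  constructor
  · rintro ⟨j, rfl⟩
    have hnat : ∀ j : ℕ, ∀ d, ((sg ^ j) d).fst = d.fst := by
      intro j
      induction j with
      | zero => intro d; rfl
      | succ j ih =>
        intro d
        rw [pow_succ, Equiv.Perm.mul_apply, ih]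
        rfl
    obtain ⟨m, rfl | rfl⟩ := j.eq_nat_or_neg
    · rw [zpow_natCast]; exact (hnat m d).symm
    · have := hnat m ((sg ^ (-(m : ℤ))) d)
      rw [← Equiv.Perm.mul_apply, ← zpow_natCast, ← zpow_add, add_neg_cancel, zpow_zero,
        Equiv.Perm.one_apply] at this
      exact this
  · intro h
    have h1 := sg_reach d
    have h2 := sg_reach e
    rw [← h] at h2
    exact h1.symm.trans h2

def repDart (k : Fin 60) : H.Dart :=
  ⟨(⟨(reps.getD k.val (0, 0)).1, by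
      have h := reps_check
      rw [List.all_eq_true] at h
      have h1 := h k.val (List.mem_range.2 k.isLt)
      simp only [Bool.and_eq_true, Nat.blt_eq] at h1
      exact h1.1.1.1⟩, ⟨(reps.getD k.val (0, 0)).2, by
      have h := reps_check
      rw [List.all_eq_true] at h
      have h1 := h k.val (List.mem_range.2 k.isLt)
      simp only [Bool.and_eq_true, Nat.blt_eq] at h1
      exact h1.1.1.2⟩), by
    have h := reps_check
    rw [List.all_eq_true] at h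
    have h1 := h k.val (List.mem_range.2 k.isLt)
    simp only [Bool.and_eq_true, Nat.blt_eq] at h1
    exact h1.1.2⟩

theorem repDart_lf (k : Fin 60) : lf (repDart k).fst.val (repDart k).snd.val = k.val := by
  have h := reps_check
  rw [List.all_eq_true] at h
  have h1 := h k.val (List.mem_range.2 k.isLt)
  simp only [Bool.and_eq_true, Nat.beq_eq] at h1
  exact h1.2

theorem face_orbits : numOrbits (sg * rev H) = 60 := by
  apply numOrbits_eq (sg * rev H) 60
    (fun d => ⟨lf d.fst.val d.snd.val, (dart_props d.fst.isLt d.snd.isLt d.adj).2.2.2.2.2.2.2.1⟩)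
    repDart (fun d => pf d.fst.val d.snd.val)
  · intro d
    apply Fin.ext
    exact (dart_props d.fst.isLt d.snd.isLt d.adj).2.2.2.2.2.2.2.2.1
  · intro k
    apply Fin.ext
    exact repDart_lf k
  · intro d
    rcases (dart_props d.fst.isLt d.snd.isLt d.adj).2.2.2.2.2.2.2.2.2 with h | h
    · left
      apply SimpleGraph.Dart.ext
      apply Prod.ext
      · exact Fin.ext h.1
      · exact Fin.ext h.2
    · right
      exact h

theorem parts_one : numOrbitsTwo sg (rev H) = 1 := by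
  apply numOrbitsTwo_eq_one sg (rev H) (firstDart 0)
  have key : ∀ m : ℕ, ∀ u : Fin 64, (pars.getD u.val (0, 0)).2 ≤ m → ∀ d : H.Dart, d.fst = u →
      ∃ g ∈ Subgroup.closure ({sg, rev H} : Set (Equiv.Perm H.Dart)), g (firstDart 0) = d := by
    intro m
    induction m with
    | zero =>
      intro u hu d hd
      have h := par_check
      rw [List.all_eq_true] at h
      have h1 := h u.val (List.mem_range.2 u.isLt)
      simp only [Bool.and_eq_true, Bool.or_eq_true, Nat.blt_eq, Nat.beq_eq] at h1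
      rcases h1 with h1 | h1
      · have hu0 : u = 0 := Fin.ext h1
        have h2 := sg_reach d
        rw [hd, hu0] at h2
        exact sameCycle_mem_closure sg (rev H) h2
      · omega
    | succ m ih =>
      intro u hu d hd
      have h := par_check
      rw [List.all_eq_true] at h
      have h1 := h u.val (List.mem_range.2 u.isLt)
      simp only [Bool.and_eq_true, Bool.or_eq_true, Nat.blt_eq, Nat.beq_eq] at h1
      rcases h1 with h1 | h1
      · have hu0 : u = 0 := Fin.ext h1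
        have h2 := sg_reach d
        rw [hd, hu0] at h2
        exact sameCycle_mem_closure sg (rev H) h2
      · obtain ⟨⟨ha, hb⟩, hc⟩ := h1
        set w : Fin 64 := ⟨(pars.getD u.val (0, 0)).1, ha⟩ with hw
        have hadj : H.Adj u w := hb
        let e : H.Dart := ⟨(u, w), hadj⟩
        obtain ⟨g, hg, hge⟩ := ih w (Nat.lt_succ_iff.1 (lt_of_lt_of_le hc hu)) (rev H e) rfl
        have hde : sg.SameCycle e d := by
          have h1 := sg_reach d
          have h2 := sg_reach e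
          have h3 : d.fst = e.fst := hd
          rw [← h3] at h2
          exact h2.symm.trans h1
        obtain ⟨g', hg', hge'⟩ := sameCycle_mem_closure sg (rev H) hde
        refine ⟨g' * (rev H * g), mul_mem hg' (mul_mem (Subgroup.subset_closure (by simp)) hg), ?_⟩
        rw [Equiv.Perm.mul_apply, Equiv.Perm.mul_apply, hge]
        show g' (SimpleGraph.Dart.symm (SimpleGraph.Dart.symm e)) = d
        rw [SimpleGraph.Dart.symm_symm]
        exact hge'
  intro d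
  exact key _ d.fst le_rfl d rfl

theorem deg_check : (∑ v : Fin 64,
    (Finset.univ.filter (fun w : Fin 64 => adjb v.val w.val = true)).card) = 244 := by
  decide +kernel

instance : DecidableRel H.Adj := fun u v => by
  unfold H; exact inferInstanceAs (Decidable (adjb u.val v.val = true))

theorem card_edges : Nat.card H.edgeSet = 122 := by
  have h1 := H.sum_degrees_eq_twice_card_edges
  have h2 : ∑ v, H.degree v = 244 := by
    rw [← deg_check]
    apply Finset.sum_congr rfl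
    intro v _
    rw [← SimpleGraph.card_neighborFinset_eq_degree]
    congr 1
    ext w
    simp [H_adj]
  rw [h2] at h1
  rw [Nat.card_eq_fintype_card, ← SimpleGraph.edgeFinset_card]
  omega

theorem H_planar : IsPlanar H := by
  refine ⟨sg, sg_rotation, ?_⟩
  rw [sg_orbits, face_orbits, card_edges, parts_one]

end Pool.Agent.MP_e21097_co.Ex
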