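import Mathlib

set_option linter.unusedSectionVars false

namespace Pool.Agent.MP_e21097_co

open Finset

section
variable {V : Type*} [DecidableEq V]

/-- number of edges of the multigraph `E` with both ends in `X` -/
def ind (E : Multiset (V × V)) (X : Finset V) : ℕ :=
  E.countP (fun e => e.1 ∈ X ∧ e.2 ∈ X)

/-- upper end of an edge with respect to a rank function -/
def child (r : V → ℕ) (e : V × V) : V := if r e.1 < r e.2 then e.2 else e.1

theorem ind_supermod (E : Multiset (V × V)) (X Y : Finset V) :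
    ind E X + ind E Y ≤ ind E (X ∪ Y) + ind E (X ∩ Y) := by
  unfold ind
  induction E using Multiset.induction_on with
  | empty => simp
  | cons e E ih =>
    simp only [Multiset.countP_cons, mem_union, mem_inter]
    have h1 : (if e.1 ∈ X ∧ e.2 ∈ X then 1 else 0) + (if e.1 ∈ Y ∧ e.2 ∈ Y then 1 else 0) ≤
        (if (e.1 ∈ X ∨ e.1 ∈ Y) ∧ (e.2 ∈ X ∨ e.2 ∈ Y) then 1 else 0) +
        (if (e.1 ∈ X ∧ e.1 ∈ Y) ∧ (e.2 ∈ X ∧ e.2 ∈ Y) then 1 else 0) := by
      by_cases a : e.1 ∈ X <;> by_cases b : e.2 ∈ X <;> by_cases c : e.1 ∈ Y <;>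
        by_cases d : e.2 ∈ Y <;> simp [a, b, c, d]
    simp only [mem_union, mem_inter] at ih
    omega

theorem ind_cons (e : V × V) (E : Multiset (V × V)) (X : Finset V) :
    ind (e ::ₘ E) X = ind E X + if e.1 ∈ X ∧ e.2 ∈ X then 1 else 0 := by
  unfold ind
  rw [Multiset.countP_cons]

theorem ind_add (E E' : Multiset (V × V)) (X : Finset V) :
    ind (E + E') X = ind E X + ind E' X := by
  unfold ind
  rw [Multiset.countP_add]

theorem ind_mono (E : Multiset (V × V)) {X Y : Finset V} (h : X ⊆ Y) : ind E X ≤ ind E Y := by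
  unfold ind
  induction E using Multiset.induction_on with
  | empty => simp
  | cons e E ih =>
    simp only [Multiset.countP_cons]
    have : (if e.1 ∈ X ∧ e.2 ∈ X then 1 else 0) ≤ (if e.1 ∈ Y ∧ e.2 ∈ Y then 1 else 0) := by
      split_ifs with a b
      · exact le_rfl
      · exact absurd ⟨h a.1, h a.2⟩ b
      · exact Nat.zero_le _
      · exact le_rfl
    omega

/-- sparsity: every nonempty vertex set `X` inside `S` spans at most `2|X|-2` edges -/
def Sparse (S : Finset V) (E : Multiset (V × V)) : Prop :=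
  ∀ X ⊆ S, X.Nonempty → ind E X + 2 ≤ 2 * X.card

theorem tight_union {S : Finset V} {E : Multiset (V × V)} (hE : Sparse S E) {X Y : Finset V}
    (hX : X ⊆ S) (hY : Y ⊆ S) (hXY : (X ∩ Y).Nonempty) (tX : ind E X + 2 = 2 * X.card)
    (tY : ind E Y + 2 = 2 * Y.card) : ind E (X ∪ Y) + 2 = 2 * (X ∪ Y).card := by
  have h1 := ind_supermod E X Y
  have h2 := hE (X ∩ Y) (inter_subset_left.trans hX) hXY
  have h3 := hE (X ∪ Y) (union_subset hX hY) (hXY.mono (inter_subset_left.trans subset_union_left))
  have h4 := card_union_add_card_inter X Y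
  omega

/-- If `x`, `y` may not be joined, some tight set contains both. -/
theorem exists_tight {S : Finset V} {E : Multiset (V × V)} (hE : Sparse S E) {x y : V}
    (hx : x ∈ S) (h : x ≠ y → ¬ Sparse S ((x, y) ::ₘ E)) (hl : ∀ e ∈ E, e.1 ≠ e.2) :
    ∃ X ⊆ S, x ∈ X ∧ y ∈ X ∧ ind E X + 2 = 2 * X.card := by
  by_cases hxy : x = y
  · subst hxy
    refine ⟨{x}, by simpa using hx, by simp, by simp, ?_⟩
    have : ind E {x} = 0 := by
      unfold ind
      rw [Multiset.countP_eq_zero]
      intro e he h1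
      simp only [mem_singleton] at h1
      exact hl e he (h1.1.trans h1.2.symm)
    rw [this]; simp
  · have h1 := h hxy
    unfold Sparse at h1
    push Not at h1
    obtain ⟨X, hXS, hXne, hX⟩ := h1
    have h2 := hE X hXS hXne
    rw [ind_cons] at hX
    by_cases h3 : x ∈ X ∧ y ∈ X
    · rw [if_pos h3] at hX
      exact ⟨X, hXS, h3.1, h3.2, by omega⟩
    · rw [if_neg h3] at hX
      omega

/-- a ranked forest: the multigraph `E` with rank `r` -/
def RF (S : Finset V) (E : Multiset (V × V)) (r : V → ℕ) : Prop :=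
  Set.InjOn r (S : Set V) ∧ (E.map (child r)).Nodup

theorem child_of_ne {r : V → ℕ} {e : V × V} {v : V} (h : e.1 = v ∨ e.2 = v)
    (hr : ∀ w, (w = e.1 ∨ w = e.2) → w ≠ v → r w < r v) (hne : e.1 ≠ e.2) : child r e = v := by
  unfold child
  rcases h with h | h
  · have := hr e.2 (Or.inr rfl) (fun h' => hne (h.trans h'.symm))
    rw [if_neg (by rw [h]; omega)]
    exact h
  · have := hr e.1 (Or.inl rfl) (fun h' => hne (h'.trans h.symm))
    rw [if_pos (by rw [h]; omega)]
    exact h

theorem child_mem {r : V → ℕ} (e : V × V) : child r e = e.1 ∨ child r e = e.2 := by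
  unfold child
  split_ifs
  · exact Or.inr rfl
  · exact Or.inl rfl

/-- doubled rank with a new value at `v` -/
def newr (r : V → ℕ) (v : V) (t : ℕ) : V → ℕ := fun u => if u = v then 2 * t else 2 * r u + 1

theorem newr_self (r : V → ℕ) (v : V) (t : ℕ) : newr r v t v = 2 * t := by simp [newr]
theorem newr_of_ne (r : V → ℕ) {v u : V} (t : ℕ) (h : u ≠ v) : newr r v t u = 2 * r u + 1 := by
  simp [newr, h]

theorem child_newr (r : V → ℕ) (v : V) (t : ℕ) (e : V × V) (h1 : e.1 ≠ v) (h2 : e.2 ≠ v) :
    child (newr r v t) e = child r e := by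
  unfold child
  rw [newr_of_ne r t h1, newr_of_ne r t h2]
  simp only [add_lt_add_iff_right, Nat.ofNat_pos, mul_lt_mul_iff_right₀]

theorem injOn_newr {S : Finset V} {r : V → ℕ} {v : V} (t : ℕ)
    (h : Set.InjOn r ((S.erase v : Finset V) : Set V)) : Set.InjOn (newr r v t) (S : Set V) := by
  intro a ha b hb hab
  by_cases h1 : a = v <;> by_cases h2 : b = v
  · exact h1.trans h2.symm
  · rw [h1, newr_self, newr_of_ne _ _ h2] at hab; omega
  · rw [h2, newr_self, newr_of_ne _ _ h1] at hab; omega
  · rw [newr_of_ne _ _ h1, newr_of_ne _ _ h2] at hab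
    exact h (Finset.mem_coe.mpr (mem_erase.mpr ⟨h1, ha⟩)) (Finset.mem_coe.mpr (mem_erase.mpr ⟨h2, hb⟩)) (by omega)

theorem map_child_newr (r : V → ℕ) (v : V) (t : ℕ) (E : Multiset (V × V))
    (h : ∀ e ∈ E, e.1 ≠ v ∧ e.2 ≠ v) : E.map (child (newr r v t)) = E.map (child r) :=
  Multiset.map_congr rfl (fun e he => child_newr r v t e (h e he).1 (h e he).2)

/-- adding a new vertex with at most one edge on top -/
theorem RF_top {S : Finset V} {r : V → ℕ} {v : V} {E : Multiset (V × V)}
    (hE : RF (S.erase v) E r) (hEv : ∀ e ∈ E, e.1 ≠ v ∧ e.2 ≠ v) (o : Multiset (V × V))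
    (ho : o.card ≤ 1) (hov : ∀ e ∈ o, (e.1 = v ∨ e.2 = v) ∧ e.1 ≠ e.2 ∧ e.1 ∈ S ∧ e.2 ∈ S) :
    ∃ r', RF S (o + E) r' := by
  obtain ⟨M, hM⟩ : ∃ M, ∀ u ∈ S, r u < M := by
    refine ⟨S.sup r + 1, fun u hu => ?_⟩
    exact Nat.lt_succ_of_le (Finset.le_sup hu)
  refine ⟨newr r v M, injOn_newr M hE.1, ?_⟩
  rw [Multiset.map_add, map_child_newr r v M E hEv]
  have hvE : v ∉ E.map (child r) := by
    rw [Multiset.mem_map]
    rintro ⟨e, he, hev⟩
    rcases child_mem (r := r) e with h | h
    · exact (hEv e he).1 (h.symm.trans hev)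
    · exact (hEv e he).2 (h.symm.trans hev)
  rcases Nat.lt_or_ge 0 o.card with h | h
  · obtain ⟨e, rfl⟩ := Multiset.card_eq_one.mp (le_antisymm ho h)
    have hev := hov e (by simp)
    have hc : child (newr r v M) e = v := by
      apply child_of_ne hev.1 _ hev.2.1
      intro w hw hwv
      rw [newr_self, newr_of_ne _ _ hwv]
      have : r w < M := by
        rcases hw with rfl | rfl
        · exact hM _ hev.2.2.1
        · exact hM _ hev.2.2.2
      omega
    rw [Multiset.map_singleton, hc, Multiset.singleton_add, Multiset.nodup_cons]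
    exact ⟨hvE, hE.2⟩
  · have : o = 0 := Multiset.card_eq_zero.mp (by omega)
    rw [this]
    simpa using hE.2

/-- subdividing an edge by a new vertex -/
theorem RF_subdiv {S : Finset V} {r : V → ℕ} {v x y : V} {E : Multiset (V × V)}
    (hE : RF (S.erase v) ((x, y) ::ₘ E) r) (hEv : ∀ e ∈ E, e.1 ≠ v ∧ e.2 ≠ v)
    (hx : x ∈ S.erase v) (hy : y ∈ S.erase v) (hxy : x ≠ y) {e1 e2 : V × V}
    (h1 : e1 = (v, x) ∨ e1 = (x, v)) (h2 : e2 = (v, y) ∨ e2 = (y, v)) :
    ∃ r', RF S (e1 ::ₘ e2 ::ₘ E) r' := by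
  have hxv : x ≠ v := (mem_erase.mp hx).1
  have hyv : y ≠ v := (mem_erase.mp hy).1
  have hrne : r x ≠ r y := fun h => hxy (hE.1 (Finset.mem_coe.mpr hx) (Finset.mem_coe.mpr hy) h)
  have hnd := hE.2
  rw [Multiset.map_cons, Multiset.nodup_cons] at hnd
  have hvE : v ∉ E.map (child r) := by
    rw [Multiset.mem_map]
    rintro ⟨e, he, hev⟩
    rcases child_mem (r := r) e with h | h
    · exact (hEv e he).1 (h.symm.trans hev)
    · exact (hEv e he).2 (h.symm.trans hev)
  refine ⟨newr r v (max (r x) (r y)), injOn_newr _ hE.1, ?_⟩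
  set r' := newr r v (max (r x) (r y)) with hr'
  have rv : r' v = 2 * max (r x) (r y) := newr_self _ _ _
  have rx : r' x = 2 * r x + 1 := newr_of_ne _ _ hxv
  have ry : r' y = 2 * r y + 1 := newr_of_ne _ _ hyv
  rw [Multiset.map_cons, Multiset.map_cons, map_child_newr r v _ E hEv]
  rcases lt_or_gt_of_ne hrne with hlt | hlt
  · -- r x < r y: e1 has child v, e2 has child y
    have hmax : max (r x) (r y) = r y := max_eq_right hlt.le
    rw [hmax] at rv
    have c1 : child r' e1 = v := by
      unfold child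
      rcases h1 with rfl | rfl
      · simp only [rv, rx]; rw [if_neg (by omega)]
      · simp only [rv, rx]; rw [if_pos (by omega)]
    have c2 : child r' e2 = y := by
      unfold child
      rcases h2 with rfl | rfl
      · simp only [rv, ry]; rw [if_pos (by omega)]
      · simp only [rv, ry]; rw [if_neg (by omega)]
    have c3 : child r (x, y) = y := by unfold child; simp [hlt]
    rw [c1, c2, Multiset.nodup_cons, Multiset.nodup_cons]
    rw [c3] at hnd
    refine ⟨?_, hnd.1, hnd.2⟩
    rw [Multiset.mem_cons]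
    rintro (h | h)
    · exact hyv h.symm
    · exact hvE h
  · have hmax : max (r x) (r y) = r x := max_eq_left hlt.le
    rw [hmax] at rv
    have c1 : child r' e1 = x := by
      unfold child
      rcases h1 with rfl | rfl
      · simp only [rv, rx]; rw [if_pos (by omega)]
      · simp only [rv, rx]; rw [if_neg (by omega)]
    have c2 : child r' e2 = v := by
      unfold child
      rcases h2 with rfl | rfl
      · simp only [rv, ry]; rw [if_neg (by omega)]
      · simp only [rv, ry]; rw [if_pos (by omega)]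
    have c3 : child r (x, y) = x := by
      unfold child
      simp only
      rw [if_neg (by omega)]
    rw [c1, c2, Multiset.nodup_cons, Multiset.nodup_cons]
    rw [c3] at hnd
    refine ⟨?_, hvE, hnd.2⟩
    rw [Multiset.mem_cons]
    rintro (h | h)
    · exact hxv h
    · exact hnd.1 h

theorem sum_deg (S : Finset V) (E : Multiset (V × V))
    (hE : ∀ e ∈ E, e.1 ∈ S ∧ e.2 ∈ S ∧ e.1 ≠ e.2) :
    ∑ v ∈ S, E.countP (fun e => e.1 = v ∨ e.2 = v) = 2 * E.card := by
  induction E using Multiset.induction_on with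
  | empty => simp
  | cons e E ih =>
    have h1 := ih (fun f hf => hE f (Multiset.mem_cons_of_mem hf))
    have h2 := hE e (Multiset.mem_cons_self _ _)
    simp only [Multiset.countP_cons, Finset.sum_add_distrib, h1, Multiset.card_cons]
    have h3 : ∑ v ∈ S, (if e.1 = v ∨ e.2 = v then 1 else 0) = 2 := by
      have : ∀ v ∈ S, (if e.1 = v ∨ e.2 = v then 1 else 0) =
          (if e.1 = v then 1 else 0) + (if e.2 = v then 1 else 0) := by
        intro v _
        by_cases a : e.1 = v <;> by_cases b : e.2 = v <;> simp [a, b]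
        exact h2.2.2 (a.trans b.symm)
      rw [Finset.sum_congr rfl this, Finset.sum_add_distrib]
      simp [h2.1, h2.2.1]
    rw [h3]; ring

/-- Nash-Williams for two forests, in the ranked form. -/
theorem two_forests : ∀ (n : ℕ) (S : Finset V) (E : Multiset (V × V)), S.card = n →
    (∀ e ∈ E, e.1 ∈ S ∧ e.2 ∈ S ∧ e.1 ≠ e.2) → Sparse S E →
    ∃ E1 E2 : Multiset (V × V), ∃ r1 r2 : V → ℕ, E = E1 + E2 ∧ RF S E1 r1 ∧ RF S E2 r2 := by
  intro n
  induction n with
  | zero =>
    intro S E hS hE _
    rw [Finset.card_eq_zero] at hS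
    subst hS
    have : E = 0 := by
      rw [Multiset.eq_zero_iff_forall_notMem]
      intro e he
      simpa using (hE e he).1
    subst this
    exact ⟨0, 0, fun _ => 0, fun _ => 0, by simp, by simp [RF], by simp [RF]⟩
  | succ n ih =>
    intro S E hS hE hsp
    have hSne : S.Nonempty := by rw [← Finset.card_pos]; omega
    -- a vertex of degree at most three
    obtain ⟨v, hv, hdeg⟩ : ∃ v ∈ S, E.countP (fun e => e.1 = v ∨ e.2 = v) ≤ 3 := by
      by_contra hcon
      push Not at hcon
      have h1 := sum_deg S E hE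
      have h2 : ind E S = E.card := by
        unfold ind
        rw [Multiset.countP_eq_card]
        intro e he
        exact ⟨(hE e he).1, (hE e he).2.1⟩
      have h3 := hsp S subset_rfl hSne
      have h4 : ∑ v ∈ S, 4 ≤ ∑ v ∈ S, E.countP (fun e => e.1 = v ∨ e.2 = v) :=
        Finset.sum_le_sum (fun v hv => hcon v hv)
      rw [Finset.sum_const, smul_eq_mul] at h4
      omega
    set Ev := E.filter (fun e => e.1 = v ∨ e.2 = v) with hEv
    set E' := E.filter (fun e => ¬ (e.1 = v ∨ e.2 = v)) with hE'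
    have hsplit : E = Ev + E' := (Multiset.filter_add_not _ _).symm
    have hEvcard : Ev.card ≤ 3 := by
      rw [← Multiset.countP_eq_card_filter]; exact hdeg
    have hE'v : ∀ e ∈ E', e.1 ≠ v ∧ e.2 ≠ v := by
      intro e he
      have := (Multiset.mem_filter.mp he).2
      push Not at this
      exact this
    have hE'S : ∀ e ∈ E', e.1 ∈ S.erase v ∧ e.2 ∈ S.erase v ∧ e.1 ≠ e.2 := by
      intro e he
      have h1 := hE e (Multiset.mem_filter.mp he).1
      have h2 := hE'v e he
      exact ⟨mem_erase.mpr ⟨h2.1, h1.1⟩, mem_erase.mpr ⟨h2.2, h1.2.1⟩, h1.2.2⟩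
    have hEvS : ∀ e ∈ Ev, (e.1 = v ∨ e.2 = v) ∧ e.1 ≠ e.2 ∧ e.1 ∈ S ∧ e.2 ∈ S := by
      intro e he
      have h1 := hE e (Multiset.mem_filter.mp he).1
      exact ⟨(Multiset.mem_filter.mp he).2, h1.2.2, h1.1, h1.2.1⟩
    have hScard : (S.erase v).card = n := by rw [card_erase_of_mem hv]; omega
    have hsp' : Sparse (S.erase v) E' := by
      intro X hX hXne
      have h1 := hsp X (hX.trans (erase_subset _ _)) hXne
      have h2 : ind E X = ind Ev X + ind E' X := by rw [hsplit, ind_add]
      omega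
    by_cases hc : Ev.card ≤ 2
    · -- at most two edges at v
      obtain ⟨o1, o2, ho, ho1, ho2⟩ : ∃ o1 o2 : Multiset (V × V), Ev = o1 + o2 ∧ o1.card ≤ 1 ∧
          o2.card ≤ 1 := by
        rcases Nat.lt_or_ge Ev.card 1 with h | h
        · have : Ev = 0 := Multiset.card_eq_zero.mp (by omega)
          exact ⟨0, 0, by rw [this]; simp, by simp, by simp⟩
        · obtain ⟨e, he⟩ := Multiset.card_pos_iff_exists_mem.mp h
          obtain ⟨o, ho⟩ := Multiset.exists_cons_of_mem he
          refine ⟨{e}, o, by rw [ho, Multiset.singleton_add], by simp, ?_⟩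
          have := congrArg Multiset.card ho
          rw [Multiset.card_cons] at this
          omega
      obtain ⟨E1, E2, r1, r2, h12, hR1, hR2⟩ := ih (S.erase v) E' hScard hE'S hsp'
      have m1 : ∀ e ∈ E1, e.1 ≠ v ∧ e.2 ≠ v := fun e he => hE'v e (by
        rw [h12]; exact Multiset.mem_add.mpr (Or.inl he))
      have m2 : ∀ e ∈ E2, e.1 ≠ v ∧ e.2 ≠ v := fun e he => hE'v e (by
        rw [h12]; exact Multiset.mem_add.mpr (Or.inr he))
      obtain ⟨r1', hr1'⟩ := RF_top hR1 m1 o1 ho1 (fun e he => hEvS e (by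
        rw [ho]; exact Multiset.mem_add.mpr (Or.inl he)))
      obtain ⟨r2', hr2'⟩ := RF_top hR2 m2 o2 ho2 (fun e he => hEvS e (by
        rw [ho]; exact Multiset.mem_add.mpr (Or.inr he)))
      refine ⟨o1 + E1, o2 + E2, r1', r2', ?_, hr1', hr2'⟩
      rw [hsplit, ho, h12]
      abel
    · -- exactly three edges
      have hc3 : Ev.card = 3 := by omega
      obtain ⟨a, b, c, habc⟩ := Multiset.card_eq_three.mp hc3
      -- the other end of an edge at v
      have hother : ∀ e ∈ Ev, ∃ x ∈ S.erase v, e = (v, x) ∨ e = (x, v) := by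
        intro e he
        obtain ⟨h1, h2, h3, h4⟩ := hEvS e he
        rcases h1 with h | h
        · refine ⟨e.2, mem_erase.mpr ⟨fun h' => h2 (h.trans h'.symm), h4⟩, Or.inl ?_⟩
          rw [← h]
        · refine ⟨e.1, mem_erase.mpr ⟨fun h' => h2 (h'.trans h.symm), h3⟩, Or.inr ?_⟩
          rw [← h]
      obtain ⟨x, hx, hax⟩ := hother a (by rw [habc]; simp)
      obtain ⟨y, hy, hby⟩ := hother b (by rw [habc]; simp)
      obtain ⟨z, hz, hcz⟩ := hother c (by rw [habc]; simp)
      -- main claim: two distinct other ends may be joined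
      have key : ∀ (p q : V) (e1 e2 e3 : V × V), p ∈ S.erase v → q ∈ S.erase v → p ≠ q →
          Sparse (S.erase v) ((p, q) ::ₘ E') → (e1 = (v, p) ∨ e1 = (p, v)) →
          (e2 = (v, q) ∨ e2 = (q, v)) → Ev = e1 ::ₘ e2 ::ₘ {e3} →
          ∃ E1 E2 : Multiset (V × V), ∃ r1 r2 : V → ℕ, E = E1 + E2 ∧ RF S E1 r1 ∧ RF S E2 r2 := by
        intro p q e1 e2 e3 hp hq hpq hs h1 h2 hEq
        obtain ⟨E1, E2, r1, r2, h12, hR1, hR2⟩ := ih (S.erase v) ((p, q) ::ₘ E') hScard
          (by
            intro e he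
            rcases Multiset.mem_cons.mp he with rfl | he
            · exact ⟨hp, hq, hpq⟩
            · exact hE'S e he) hs
        have he3 : ∀ e ∈ ({e3} : Multiset (V × V)),
            (e.1 = v ∨ e.2 = v) ∧ e.1 ≠ e.2 ∧ e.1 ∈ S ∧ e.2 ∈ S := by
          intro e he
          rw [Multiset.mem_singleton] at he
          subst he
          exact hEvS e (by rw [hEq]; simp)
        have main : ∀ (E1 E2 : Multiset (V × V)) (r1 r2 : V → ℕ), (p, q) ∈ E1 →
            (p, q) ::ₘ E' = E1 + E2 → RF (S.erase v) E1 r1 → RF (S.erase v) E2 r2 →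
            ∃ E1 E2 : Multiset (V × V), ∃ r1 r2 : V → ℕ,
              E = E1 + E2 ∧ RF S E1 r1 ∧ RF S E2 r2 := by
          intro E1 E2 r1 r2 hmem h12 hR1 hR2
          obtain ⟨E1', rfl⟩ := Multiset.exists_cons_of_mem hmem
          have h12' : E' = E1' + E2 := by
            rw [Multiset.cons_add] at h12
            exact (Multiset.cons_inj_right _).mp h12
          have m1 : ∀ e ∈ E1', e.1 ≠ v ∧ e.2 ≠ v := fun e he => hE'v e (by
            rw [h12']; exact Multiset.mem_add.mpr (Or.inl he))
          have m2 : ∀ e ∈ E2, e.1 ≠ v ∧ e.2 ≠ v := fun e he => hE'v e (by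
            rw [h12']; exact Multiset.mem_add.mpr (Or.inr he))
          obtain ⟨r1', hr1'⟩ := RF_subdiv hR1 m1 hp hq hpq h1 h2
          obtain ⟨r2', hr2'⟩ := RF_top hR2 m2 {e3} (by simp) he3
          refine ⟨e1 ::ₘ e2 ::ₘ E1', {e3} + E2, r1', r2', ?_, hr1', hr2'⟩
          rw [hsplit, hEq, h12']
          simp only [← Multiset.singleton_add]
          abel
        have hmem : (p, q) ∈ E1 + E2 := by rw [← h12]; exact Multiset.mem_cons_self _ _
        rcases Multiset.mem_add.mp hmem with h | h
        · exact main E1 E2 r1 r2 h h12 hR1 hR2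
        · exact main E2 E1 r2 r1 h (by rw [h12, add_comm]) hR2 hR1
      by_contra hno
      have n1 : x ≠ y → ¬ Sparse (S.erase v) ((x, y) ::ₘ E') := fun hne hs =>
        hno (key x y a b c hx hy hne hs hax hby habc)
      have n2 : y ≠ z → ¬ Sparse (S.erase v) ((y, z) ::ₘ E') := fun hne hs =>
        hno (key y z b c a hy hz hne hs hby hcz (by
          rw [habc]
          simp only [Multiset.insert_eq_cons]
          rw [← Multiset.singleton_add, ← Multiset.singleton_add, ← Multiset.singleton_add b,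
            ← Multiset.singleton_add c]
          abel))
      have hl : ∀ e ∈ E', e.1 ≠ e.2 := fun e he => (hE'S e he).2.2
      obtain ⟨X, hXS, hxX, hyX, tX⟩ := exists_tight hsp' hx n1 hl
      obtain ⟨Y, hYS, hyY, hzY, tY⟩ := exists_tight hsp' hy n2 hl
      have tU := tight_union hsp' hXS hYS ⟨y, mem_inter.mpr ⟨hyX, hyY⟩⟩ tX tY
      have hvU : v ∉ X ∪ Y := by
        intro h
        rcases mem_union.mp h with h | h
        · exact (mem_erase.mp (hXS h)).1 rfl
        · exact (mem_erase.mp (hYS h)).1 rfl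
      have hbig := hsp (insert v (X ∪ Y)) (by
        intro u hu
        rcases mem_insert.mp hu with rfl | hu
        · exact hv
        · rcases mem_union.mp hu with h | h
          · exact mem_of_mem_erase (hXS h)
          · exact mem_of_mem_erase (hYS h)) (insert_nonempty _ _)
      have hi : ind E (insert v (X ∪ Y)) = ind Ev (insert v (X ∪ Y)) + ind E' (insert v (X ∪ Y)) := by
        conv_lhs => rw [hsplit]
        rw [ind_add]
      have hi2 : ind E' (X ∪ Y) ≤ ind E' (insert v (X ∪ Y)) := ind_mono _ (subset_insert _ _)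
      have hxU : x ∈ insert v (X ∪ Y) := mem_insert_of_mem (mem_union_left _ hxX)
      have hyU : y ∈ insert v (X ∪ Y) := mem_insert_of_mem (mem_union_left _ hyX)
      have hzU : z ∈ insert v (X ∪ Y) := mem_insert_of_mem (mem_union_right _ hzY)
      have hvU' : v ∈ insert v (X ∪ Y) := mem_insert_self _ _
      have hi3 : ind Ev (insert v (X ∪ Y)) = 3 := by
        have : ind Ev (insert v (X ∪ Y)) = Ev.card := by
          unfold ind
          rw [Multiset.countP_eq_card]
          intro e he
          rw [habc] at he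
          simp only [Multiset.insert_eq_cons, Multiset.mem_cons, Multiset.mem_singleton] at he
          rcases he with rfl | rfl | rfl
          · rcases hax with rfl | rfl
            · exact ⟨hvU', hxU⟩
            · exact ⟨hxU, hvU'⟩
          · rcases hby with rfl | rfl
            · exact ⟨hvU', hyU⟩
            · exact ⟨hyU, hvU'⟩
          · rcases hcz with rfl | rfl
            · exact ⟨hvU', hzU⟩
            · exact ⟨hzU, hvU'⟩
        rw [this, hc3]
      rw [card_insert_of_notMem hvU] at hbig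
      omega

end

end Pool.Agent.MP_e21097_co
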