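import Mathlib

namespace Pool.Agent.MP_e21097_co

open Finset

/-- Constraint satisfaction along a ranked forest. -/
theorem forest_csp {V X : Type*} (F : V → V → Prop) (r : V → ℕ)
    (hF : ∀ v a b, F v a → F v b → r a < r v → r b < r v → a = b)
    (A : V → X → Prop) (hA : ∀ v, ∃ x, A v x)
    (R : V → V → X → X → Prop)
    (hR : ∀ u v x, F v u → r u < r v → A u x → ∃ y, A v y ∧ R u v x y) :
    ∃ f : V → X, (∀ v, A v (f v)) ∧ ∀ u v, F v u → r u < r v → R u v (f u) (f v) := by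
  classical
  let step : ∀ v : V, (∀ w : V, r w < r v → X) → X := fun v g =>
    if h : ∃ u, F v u ∧ r u < r v then
      (if hy : ∃ y, A v y ∧ R h.choose v (g h.choose h.choose_spec.2) y then hy.choose
        else (hA v).choose)
    else (hA v).choose
  let f : V → X := (measure r).wf.fix (C := fun _ => X) (fun v g => step v (fun w hw => g w hw))
  have hf : ∀ v, f v = step v (fun w _ => f w) := by
    intro v
    exact (measure r).wf.fix_eq (C := fun _ => X) (fun v g => step v (fun w hw => g w hw)) v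
  have h1 : ∀ v, A v (f v) := by
    intro v
    rw [hf v]
    simp only [step]
    split_ifs with h hy
    · exact hy.choose_spec.1
    · exact (hA v).choose_spec
    · exact (hA v).choose_spec
  refine ⟨f, h1, ?_⟩
  intro u v huv hr
  have h : ∃ u, F v u ∧ r u < r v := ⟨u, huv, hr⟩
  have hu : h.choose = u := hF v _ _ h.choose_spec.1 huv h.choose_spec.2 hr
  have hy : ∃ y, A v y ∧ R h.choose v (f h.choose) y :=
    hR _ _ _ h.choose_spec.1 h.choose_spec.2 (h1 _)
  have hfv : f v = hy.choose := by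
    rw [hf v]
    simp only [step]
    rw [dif_pos h, dif_pos hy]
  have := hy.choose_spec.2
  rw [← hfv, hu] at this
  exact this

/-- Splitting a list of four colours against a split list of a neighbour. -/
theorem split_step {C : Type*} [DecidableEq C] (L A B : Finset C) (hL : L.card = 4)
    (hA : A.card = 2) (hB : B.card = 2) (hAB : Disjoint A B) :
    ∃ A' B' : Finset C, A'.card = 2 ∧ B'.card = 2 ∧ Disjoint A' B' ∧ A' ∪ B' = L ∧
      Disjoint A A' ∧ Disjoint B B' := by
  have h1 : L ∩ B ⊆ L \ A := by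
    intro x hx
    rw [mem_inter] at hx
    rw [mem_sdiff]
    exact ⟨hx.1, fun h => (Finset.disjoint_left.mp hAB h) hx.2⟩
  have h2 : (L ∩ B).card ≤ 2 := by
    rw [← hB]; exact card_le_card inter_subset_right
  have h3 : 2 ≤ (L \ A).card := by
    have := Finset.le_card_sdiff A L
    omega
  obtain ⟨A', hA1, hA2, hA3⟩ := Finset.exists_subsuperset_card_eq h1 h2 h3
  have hA'L : A' ⊆ L := hA2.trans sdiff_subset
  refine ⟨A', L \ A', hA3, ?_, disjoint_sdiff, ?_, ?_, ?_⟩
  · rw [card_sdiff_of_subset hA'L, hL, hA3]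
  · exact union_sdiff_of_subset hA'L
  · rw [Finset.disjoint_left]
    intro x hxA hxA'
    exact (mem_sdiff.mp (hA2 hxA')).2 hxA
  · rw [Finset.disjoint_left]
    intro x hxB hx
    rw [mem_sdiff] at hx
    exact hx.2 (hA1 (mem_inter.mpr ⟨hx.1, hxB⟩))

theorem pair_step {C : Type*} [DecidableEq C] (A : Finset C) (hA : A.card = 2) (x y : C)
    (hxy : x ≠ y) : ∃ x' y' : C, x' ∈ A ∧ y' ∈ A ∧ x' ≠ y' ∧ x ≠ x' ∧ y ≠ y' := by
  obtain ⟨p, q, hpq, rfl⟩ := Finset.card_eq_two.mp hA
  by_cases h : p = x ∨ q = y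
  · refine ⟨q, p, by simp, by simp, hpq.symm, ?_, ?_⟩
    · rintro rfl
      rcases h with h | h
      · exact hpq h
      · exact hxy h
    · rintro rfl
      rcases h with h | h
      · exact hxy h.symm
      · exact hpq h.symm
  · push Not at h
    exact ⟨p, q, by simp, by simp, hpq, fun e => h.1 e.symm, fun e => h.2 e.symm⟩

/-- A graph covered by two ranked forests has a packing for every `4`-list assignment. -/
theorem packing_of_forests {V C : Type*} [DecidableEq C] (Adj F1 F2 : V → V → Prop)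
    (r1 r2 : V → ℕ) (hr1 : Function.Injective r1) (hr2 : Function.Injective r2)
    (hs1 : ∀ u v, F1 u v → F1 v u) (hs2 : ∀ u v, F2 u v → F2 v u)
    (hF1 : ∀ v a b, F1 v a → F1 v b → r1 a < r1 v → r1 b < r1 v → a = b)
    (hF2 : ∀ v a b, F2 v a → F2 v b → r2 a < r2 v → r2 b < r2 v → a = b)
    (hirr : ∀ u, ¬ Adj u u)
    (hcov : ∀ u v, Adj u v → F1 u v ∨ F2 u v)
    (L : V → Finset C) (hL : ∀ v, (L v).card = 4) :
    ∃ c : Fin 4 → V → C, (∀ i v, c i v ∈ L v) ∧ (∀ i u v, Adj u v → c i u ≠ c i v) ∧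
      (∀ i j v, i ≠ j → c i v ≠ c j v) := by
  classical
  obtain ⟨g, hg1, hg2⟩ := forest_csp (X := Finset C × Finset C) F2 r2 hF2
    (fun v X => X.1.card = 2 ∧ X.2.card = 2 ∧ Disjoint X.1 X.2 ∧ X.1 ∪ X.2 = L v)
    (fun v => by
      obtain ⟨A, hA, hA2⟩ := Finset.exists_subset_card_eq (s := L v) (n := 2) (by rw [hL]; norm_num)
      refine ⟨(A, L v \ A), hA2, ?_, disjoint_sdiff, union_sdiff_of_subset hA⟩
      rw [card_sdiff_of_subset hA, hL, hA2])
    (fun _ _ X Y => Disjoint X.1 Y.1 ∧ Disjoint X.2 Y.2)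
    (fun u v X _ _ hX => by
      obtain ⟨A', B', h1, h2, h3, h4, h5, h6⟩ := split_step (L v) X.1 X.2 (hL v) hX.1 hX.2.1 hX.2.2.1
      exact ⟨(A', B'), ⟨h1, h2, h3, h4⟩, h5, h6⟩)
  have hpass : ∀ A : V → Finset C, (∀ v, (A v).card = 2) →
      ∃ f : V → C × C, (∀ v, (f v).1 ∈ A v ∧ (f v).2 ∈ A v ∧ (f v).1 ≠ (f v).2) ∧
        ∀ u v, F1 v u → r1 u < r1 v → (f u).1 ≠ (f v).1 ∧ (f u).2 ≠ (f v).2 := by
    intro A hA
    exact forest_csp (X := C × C) F1 r1 hF1
      (fun v x => x.1 ∈ A v ∧ x.2 ∈ A v ∧ x.1 ≠ x.2)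
      (fun v => by
        obtain ⟨p, q, hpq, h⟩ := Finset.card_eq_two.mp (hA v)
        exact ⟨(p, q), by simp [h], by simp [h], hpq⟩)
      (fun _ _ x y => x.1 ≠ y.1 ∧ x.2 ≠ y.2)
      (fun u v x _ _ hx => by
        obtain ⟨x', y', h1, h2, h3, h4, h5⟩ := pair_step (A v) (hA v) x.1 x.2 hx.2.2
        exact ⟨(x', y'), ⟨h1, h2, h3⟩, h4, h5⟩)
  obtain ⟨f, hf1, hf2⟩ := hpass (fun v => (g v).1) (fun v => (hg1 v).1)
  obtain ⟨h, hh1, hh2⟩ := hpass (fun v => (g v).2) (fun v => (hg1 v).2.1)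
  have key1 : ∀ u v, F1 u v → u ≠ v → ((f u).1 ≠ (f v).1 ∧ (f u).2 ≠ (f v).2) ∧
      ((h u).1 ≠ (h v).1 ∧ (h u).2 ≠ (h v).2) := by
    intro u v huv hne
    rcases lt_or_gt_of_ne (fun e => hne (hr1 e) : r1 u ≠ r1 v) with hlt | hlt
    · exact ⟨hf2 u v (hs1 _ _ huv) hlt, hh2 u v (hs1 _ _ huv) hlt⟩
    · have a := hf2 v u huv hlt
      have b := hh2 v u huv hlt
      exact ⟨⟨a.1.symm, a.2.symm⟩, ⟨b.1.symm, b.2.symm⟩⟩
  have key2 : ∀ u v, F2 u v → u ≠ v → Disjoint (g u).1 (g v).1 ∧ Disjoint (g u).2 (g v).2 := by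
    intro u v huv hne
    rcases lt_or_gt_of_ne (fun e => hne (hr2 e) : r2 u ≠ r2 v) with hlt | hlt
    · exact hg2 u v (hs2 _ _ huv) hlt
    · have a := hg2 v u huv hlt
      exact ⟨a.1.symm, a.2.symm⟩
  have hdis : ∀ v, ∀ x ∈ (g v).1, ∀ y ∈ (g v).2, x ≠ y := by
    intro v x hx y hy e
    exact Finset.disjoint_left.mp (hg1 v).2.2.1 hx (e ▸ hy)
  refine ⟨![fun v => (f v).1, fun v => (f v).2, fun v => (h v).1, fun v => (h v).2], ?_, ?_, ?_⟩
  · intro i v
    have e := (hg1 v).2.2.2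
    rw [← e, mem_union]
    fin_cases i
    · exact Or.inl (hf1 v).1
    · exact Or.inl (hf1 v).2.1
    · exact Or.inr (hh1 v).1
    · exact Or.inr (hh1 v).2.1
  · intro i u v huv
    have hne : u ≠ v := by rintro rfl; exact hirr _ huv
    rcases hcov u v huv with h1 | h2
    · have k := key1 u v h1 hne
      fin_cases i
      · exact k.1.1
      · exact k.1.2
      · exact k.2.1
      · exact k.2.2
    · have k := key2 u v h2 hne
      fin_cases i
      · intro e
        exact Finset.disjoint_left.mp k.1 (hf1 u).1 (by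
          have : (f u).1 = (f v).1 := e
          rw [this]; exact (hf1 v).1)
      · intro e
        exact Finset.disjoint_left.mp k.1 (hf1 u).2.1 (by
          have : (f u).2 = (f v).2 := e
          rw [this]; exact (hf1 v).2.1)
      · intro e
        exact Finset.disjoint_left.mp k.2 (hh1 u).1 (by
          have : (h u).1 = (h v).1 := e
          rw [this]; exact (hh1 v).1)
      · intro e
        exact Finset.disjoint_left.mp k.2 (hh1 u).2.1 (by
          have : (h u).2 = (h v).2 := e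
          rw [this]; exact (hh1 v).2.1)
  · intro i j v hij
    have a1 := hf1 v
    have a2 := hh1 v
    have d1 := hdis v _ a1.1 _ a2.1
    have d2 := hdis v _ a1.1 _ a2.2.1
    have d3 := hdis v _ a1.2.1 _ a2.1
    have d4 := hdis v _ a1.2.1 _ a2.2.1
    fin_cases i <;> fin_cases j <;> first | exact absurd rfl hij | skip
    · exact a1.2.2
    · exact d1
    · exact d2
    · exact a1.2.2.symm
    · exact d3
    · exact d4
    · exact d1.symm
    · exact d3.symm
    · exact a2.2.2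
    · exact d2.symm
    · exact d4.symm
    · exact a2.2.2.symm

end Pool.Agent.MP_e21097_co
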