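import Mathlib
import Pool.Agent.Lib.MP_e21097_co.Defs
import Pool.Agent.Lib.MP_e21097_co.Pack
import Pool.Agent.Lib.MP_e21097_co.NW
import Pool.Agent.Lib.MP_e21097_co.Bound

namespace Pool.Agent.MP_e21097_co

open Finset Module

theorem finrank_inv_rev {D : Type*} [Fintype D] [DecidableEq D] (α : Equiv.Perm D)
    (hα : ∀ d, α (α d) = d) (hα' : ∀ d, α d ≠ d) : 2 * finrank K2 (InvP α) = Fintype.card D := by
  have h1 : finrank K2 (LinearMap.range (bdry α)) ≤ finrank K2 (InvP α) := by
    apply Submodule.finrank_mono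
    rintro _ ⟨f, rfl⟩
    rw [mem_InvP]
    intro d
    simp only [bdry_apply, hα]; ring
  have h2 : finrank K2 (LinearMap.ker (bdry α)) ≤ finrank K2 (InvP α) := by
    apply Submodule.finrank_mono
    intro f hf
    rw [mem_InvP]
    intro d
    have := congrFun (LinearMap.mem_ker.mp hf) d
    simp only [bdry_apply, Pi.zero_apply] at this
    exact (CharTwo.add_eq_zero.mp this).symm
  have h3 := LinearMap.finrank_range_add_finrank_ker (bdry α)
  rw [Module.finrank_fintype_fun_eq_card] at h3
  have h4 : finrank K2 (InvP α) ≤ finrank K2 ((dotB D).orthogonal (InvP α)) := by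
    apply Submodule.finrank_mono
    intro y hy
    rw [LinearMap.BilinForm.mem_orthogonal_iff]
    intro n hn
    show dotB D n y = 0
    rw [dotB_apply]
    apply sum_invol α hα hα'
    intro d
    rw [mem_InvP.mp hy, mem_InvP.mp hn]
  rw [LinearMap.BilinForm.finrank_orthogonal dotB_nondeg,
    Module.finrank_fintype_fun_eq_card] at h4
  have h5 := Submodule.finrank_le (InvP α)
  rw [Module.finrank_fintype_fun_eq_card] at h5
  omega

theorem finrank_inv_two {D : Type} [Fintype D] [DecidableEq D] (σ τ : Equiv.Perm D) :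
    finrank K2 (InvP σ ⊓ InvP τ : Submodule K2 (D → K2)) = numOrbitsTwo σ τ := by
  have : (InvP σ ⊓ InvP τ : Submodule K2 (D → K2)) =
      SV (MulAction.orbitRel (Subgroup.closure ({σ, τ} : Set (Equiv.Perm D))) D) := by
    ext f
    rw [Submodule.mem_inf, mem_InvP, mem_InvP]
    constructor
    · rintro ⟨h1, h2⟩ a b hab
      obtain ⟨⟨g, hg⟩, rfl⟩ := (MulAction.orbitRel_apply.mp hab)
      show f (g b) = f b
      have key : ∀ g ∈ Subgroup.closure ({σ, τ} : Set (Equiv.Perm D)), ∀ d, f (g d) = f d := by
        intro g hg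
        induction hg using Subgroup.closure_induction with
        | mem x hx =>
          rcases hx with rfl | hx
          · exact h1
          · rw [Set.mem_singleton_iff.mp hx]; exact h2
        | one => intro d; rfl
        | mul x y _ _ hx hy => intro d; rw [Equiv.Perm.mul_apply, hx, hy]
        | inv x _ hx =>
          intro d
          have := hx (x⁻¹ d)
          rw [← Equiv.Perm.mul_apply, mul_inv_cancel, Equiv.Perm.one_apply] at this
          exact this.symm
      exact key g hg b
    · intro h
      constructor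
      · intro d
        apply h
        rw [MulAction.orbitRel_apply]
        exact ⟨⟨σ, Subgroup.subset_closure (by simp)⟩, rfl⟩
      · intro d
        apply h
        rw [MulAction.orbitRel_apply]
        exact ⟨⟨τ, Subgroup.subset_closure (by simp)⟩, rfl⟩
  rw [this, finrank_SV]
  rfl

/-- A finite bipartite planar graph has a packing for every assignment of lists of size four. -/
theorem upper {V C : Type} [Finite V] (G : SimpleGraph V) (hb : G.IsBipartite)
    (hp : IsPlanar G) (L : V → Finset C) (hL : ∀ v, (L v).card = 4) :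
    ∃ c : Fin 4 → V → C, IsPacking G 4 L c := by
  classical
  obtain ⟨σ, hσ, heul⟩ := hp
  have : Fintype V := Fintype.ofFinite V
  obtain ⟨col⟩ := hb
  have hα : ∀ d : G.Dart, rev G (rev G d) = d := SimpleGraph.Dart.symm_symm
  have hα' : ∀ d : G.Dart, rev G d ≠ d := SimpleGraph.Dart.symm_ne
  have hE : 2 * Nat.card G.edgeSet = Fintype.card G.Dart := by
    rw [SimpleGraph.dart_card_eq_twice_card_edges, Nat.card_eq_fintype_card,
      ← SimpleGraph.edgeFinset_card]
  have e1 : finrank K2 (InvP σ) = numOrbits σ := finrank_SV _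
  have e2 : finrank K2 (InvP (σ * rev G)) = numOrbits (σ * rev G) := finrank_SV _
  have e3 := finrank_inv_rev (rev G) hα hα'
  have e4 := finrank_inv_two σ (rev G)
  have heul' : finrank K2 (InvP σ) + finrank K2 (InvP (rev G)) + finrank K2 (InvP (σ * rev G)) =
      Fintype.card G.Dart + 2 * finrank K2 (InvP σ ⊓ InvP (rev G) : Submodule K2 (G.Dart → K2)) := by
    rw [e1, e2, e4]
    omega
  have hb2 : ∀ X : Finset V, X.Nonempty →
      (univ.filter (fun d : G.Dart => d.fst ∈ X ∧ d.snd ∈ X)).card + 4 ≤ 4 * X.card := by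
    intro X hX
    refine edge_bound σ (rev G) (fun d : G.Dart => d.fst) hα hα' ?_ ?_ ?_
      (fun v => decide (col v = 0)) ?_ heul' X hX
    · intro d
      exact (hσ (σ d) d).mp (Equiv.Perm.sameCycle_apply_left.mpr (Equiv.Perm.SameCycle.refl _ _))
    · intro d e h
      exact (hσ d e).mpr h
    · intro d e h1 h2
      exact SimpleGraph.Dart.ext _ _ (Prod.ext h1 h2)
    · intro d h
      have hne := col.valid d.adj
      have h1 : (col d.fst = 0) ↔ (col d.snd = 0) := by
        have h' : decide (col d.fst = 0) = decide (col d.snd = 0) := h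
        simpa using h'
      apply hne
      show col d.fst = col d.snd
      generalize col d.fst = a at h1
      generalize col d.snd = b at h1
      fin_cases a <;> fin_cases b <;> simp_all
  -- the edge multiset
  let eq := Fintype.equivFin V
  let EF : Finset (V × V) := univ.filter (fun p => eq p.1 < eq p.2 ∧ G.Adj p.1 p.2)
  let E : Multiset (V × V) := EF.val
  have hind : ∀ X : Finset V, ind E X = (EF.filter (fun p => p.1 ∈ X ∧ p.2 ∈ X)).card := by
    intro X
    unfold ind
    rw [Multiset.countP_eq_card_filter]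
    rfl
  have hcount : ∀ X : Finset V,
      2 * ind E X = (univ.filter (fun d : G.Dart => d.fst ∈ X ∧ d.snd ∈ X)).card := by
    intro X
    set P := univ.filter (fun p : V × V => G.Adj p.1 p.2 ∧ p.1 ∈ X ∧ p.2 ∈ X) with hP
    have h1 : (univ.filter (fun d : G.Dart => d.fst ∈ X ∧ d.snd ∈ X)).card = P.card := by
      apply Finset.card_bij (fun d _ => d.toProd)
      · intro d hd
        have := (mem_filter.mp hd).2
        exact mem_filter.mpr ⟨mem_univ _, d.adj, this⟩
      · intro d _ e _ h
        exact SimpleGraph.Dart.ext _ _ h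
      · intro p hp
        have := (mem_filter.mp hp).2
        exact ⟨⟨p, this.1⟩, mem_filter.mpr ⟨mem_univ _, this.2⟩, rfl⟩
    have h2 : P.card = (P.filter (fun p => eq p.1 < eq p.2)).card +
        (P.filter (fun p => ¬ eq p.1 < eq p.2)).card :=
      (Finset.card_filter_add_card_filter_not _).symm
    have h3 : (P.filter (fun p => ¬ eq p.1 < eq p.2)).card =
        (P.filter (fun p => eq p.1 < eq p.2)).card := by
      apply Finset.card_bij (fun p _ => p.swap)
      · intro p hp
        rw [mem_filter, hP, mem_filter] at hp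
        rw [mem_filter, hP, mem_filter]
        refine ⟨⟨mem_univ _, hp.1.2.1.symm, hp.1.2.2.2, hp.1.2.2.1⟩, ?_⟩
        have hne : p.1 ≠ p.2 := G.ne_of_adj hp.1.2.1
        have : eq p.1 ≠ eq p.2 := fun h => hne (eq.injective h)
        show eq p.2 < eq p.1
        exact lt_of_le_of_ne (not_lt.mp hp.2) this.symm
      · intro p _ q _ h
        exact Prod.swap_injective h
      · intro p hp
        rw [mem_filter, hP, mem_filter] at hp
        refine ⟨p.swap, ?_, Prod.swap_swap p⟩
        rw [mem_filter, hP, mem_filter]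
        exact ⟨⟨mem_univ _, hp.1.2.1.symm, hp.1.2.2.2, hp.1.2.2.1⟩, not_lt.mpr hp.2.le⟩
    have h4 : P.filter (fun p => eq p.1 < eq p.2) = EF.filter (fun p => p.1 ∈ X ∧ p.2 ∈ X) := by
      ext p
      simp only [hP, EF, mem_filter, mem_univ, true_and]
      tauto
    rw [h1, h2, h3, h4, hind]
    ring
  have hmemE : ∀ p : V × V, p ∈ E ↔ (eq p.1 < eq p.2 ∧ G.Adj p.1 p.2) := by
    intro p
    show p ∈ EF ↔ _
    simp [EF]
  obtain ⟨E1, E2, r1, r2, hE12, hR1, hR2⟩ := two_forests (Fintype.card V) (univ : Finset V) E rfl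
    (fun e he => ⟨mem_univ _, mem_univ _, G.ne_of_adj ((hmemE e).mp he).2⟩)
    (fun X _ hX => by
      have h1 := hb2 X hX
      have h2 := hcount X
      omega)
  -- the two forests as relations
  have hunique : ∀ (E' : Multiset (V × V)) (r : V → ℕ), RF univ E' r →
      ∀ v a b, ((v, a) ∈ E' ∨ (a, v) ∈ E') → ((v, b) ∈ E' ∨ (b, v) ∈ E') → r a < r v →
        r b < r v → a = b := by
    intro E' r hR v a b ha hb hra hrb
    have hinj := Multiset.inj_on_of_nodup_map hR.2
    have hc : ∀ x, r x < r v → child r (v, x) = v ∧ child r (x, v) = v := by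
      intro x hx
      unfold child
      simp only
      rw [if_neg (by omega), if_pos hx]
      exact ⟨rfl, rfl⟩
    have ca := hc a hra
    have cb := hc b hrb
    rcases ha with ha | ha <;> rcases hb with hb | hb
    · exact (Prod.ext_iff.mp (hinj _ ha _ hb (ca.1.trans cb.1.symm))).2
    · have := Prod.ext_iff.mp (hinj _ ha _ hb (ca.1.trans cb.2.symm))
      simp only at this
      exact this.2.trans this.1
    · have := Prod.ext_iff.mp (hinj _ ha _ hb (ca.2.trans cb.1.symm))
      simp only at this
      exact this.1.trans this.2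
    · exact (Prod.ext_iff.mp (hinj _ ha _ hb (ca.2.trans cb.2.symm))).1
  obtain ⟨c, hc1, hc2, hc3⟩ := packing_of_forests G.Adj
    (fun u v => (u, v) ∈ E1 ∨ (v, u) ∈ E1) (fun u v => (u, v) ∈ E2 ∨ (v, u) ∈ E2) r1 r2
    (fun a b h => hR1.1 (by simp) (by simp) h) (fun a b h => hR2.1 (by simp) (by simp) h)
    (fun u v h => h.symm) (fun u v h => h.symm)
    (hunique E1 r1 hR1) (hunique E2 r2 hR2) (fun u => G.irrefl)
    (fun u v huv => by
      have : (u, v) ∈ E ∨ (v, u) ∈ E := by
        rcases lt_or_gt_of_ne (fun h => G.ne_of_adj huv (eq.injective h) : eq u ≠ eq v) with h | h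
        · exact Or.inl ((hmemE _).mpr ⟨h, huv⟩)
        · exact Or.inr ((hmemE _).mpr ⟨h, huv.symm⟩)
      rw [hE12, Multiset.mem_add, Multiset.mem_add] at this
      tauto) L hL
  exact ⟨c, hc1, hc2, hc3⟩

end Pool.Agent.MP_e21097_co
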